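import Pool.Agent.Helper70_ls.DetDefs

/-!
# The determinant of the cohomology as one class: definitions
-/

open CategoryTheory AlgebraicGeometry

universe u v

namespace Pool.Agent.Helper70Ct

open Pool.Agent.H914 Pool.Agent.H914.VarClass Pool.Agent.H914.VarClass.Obj
  Pool.Agent.H914.WeilCohomology Pool.Agent.Helper70Ls

variable {k : Type u} [Field k] {𝒱 : VarClass k} {ops : CycleOps 𝒱}

/-- The permutations `σ` of the indices with `e (σ j) = e j` for all `j`. -/
def stab {N : ℕ} (e : Fin N → ℕ) : Finset (Equiv.Perm (Fin N)) :=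
  Finset.univ.filter fun σ => ∀ j, e (σ j) = e j

/-- The class `∑ sgn(σ) v (σ 0) ⊠ v (σ 1) ⊠ ... ⊠ v (σ n)` on `X ^ (n + 1)`, the sum over all
permutations `σ` of the indices which preserve the degrees `e`. If `v` is a homogeneous basis of a
graded subspace `U = ⨁ U^i` of `H(X)`, it generates the line `⨂ det U^i`. -/
noncomputable def cdet (W : WeilCohomology.{u, v} ops) {X : 𝒱.Obj} (n : ℕ)
    (e : Fin (n + 1) → ℕ) (v : Fin (n + 1) → W.H X) : W.H (pow X n) :=
  ∑ σ ∈ stab e, ((Equiv.Perm.sign σ : ℤ) : W.K) • extFam W n fun j => v (σ j)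

/-- The family `v` is a basis of the subspace `U` of `H(X)` and `v j` is homogeneous of degree
`e j`. -/
def IsHomBasis (W : WeilCohomology.{u, v} ops) (X : 𝒱.Obj) (U : Submodule W.K (W.H X)) (n : ℕ)
    (e : Fin (n + 1) → ℕ) (v : Fin (n + 1) → W.H X) : Prop :=
  (∀ j, v j ∈ W.gr X (e j)) ∧ LinearIndependent W.K v ∧ Submodule.span W.K (Set.range v) = U

/-- The number `q (m + 1)` is even, equal to `2 p`, and the class `c ⊠ c ⊠ ... ⊠ c` (with `m + 1`
factors) on `Z ^ (m + 1)` is a linear combination, with coefficients in the coefficient field, of classes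
of cycles of codimension `p`. (Here `q` is the degree of `c`.) -/
def PowerAlg (W : WeilCohomology.{u, v} ops) (Z : 𝒱.Obj) (q m : ℕ) (c : W.H Z) : Prop :=
  ∃ p : ℕ, q * (m + 1) = 2 * p ∧ extFam W m (fun _ => c) ∈ spanCycles W (pow Z m) p

/-- The class `δ_x ⊠ δ_y` on `X ^ (n + 1) × X ^ (n + 1)`, where `δ_x` and `δ_y` are the antisymmetrised
external products of `x` and `y`. -/
noncomputable def pairClass (W : WeilCohomology.{u, v} ops) {X : 𝒱.Obj} (n : ℕ)
    (x y : Fin (n + 1) → W.H X) : W.H (pow (pow X n) 1) :=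
  extFam W 1 ![detClass W n x, detClass W n y]

/-- The projector onto `H^i(X)` is induced by a linear combination, with coefficients in the
coefficient field, of cycles of codimension `dim X` on `X × X`. -/
def KunnethAlgebraic (W : WeilCohomology.{u, v} ops) (X : 𝒱.Obj) (i : ℕ) : Prop :=
  ∃ γ ∈ spanCycles W (X.prod X) X.dim, IsProjector (W.gr X) i (W.corr γ)

/-- The sum of the `H^i(X)` with `i ≤ dim X`. -/
noncomputable def lowPart (W : WeilCohomology.{u, v} ops) (X : 𝒱.Obj) : Submodule W.K (W.H X) :=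
  ⨆ i : {i : ℕ // i ≤ X.dim}, W.gr X i

end Pool.Agent.Helper70Ct
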