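import Pool.Agent.Helper70_sg.Sg8
import Pool.Agent.Helper70_ct.CtDefs

/-!
# Antisymmetrised external products with colours
-/

open CategoryTheory AlgebraicGeometry

universe u v

namespace Pool.Agent.Helper70Ct

open Pool.Agent.H914 Pool.Agent.H914.VarClass Pool.Agent.H914.VarClass.Obj
  Pool.Agent.H914.WeilCohomology Pool.Agent.Helper70Rk Pool.Agent.Helper70Ls Pool.Agent.Helper70Sg

variable {k : Type u} [Field k] {𝒱 : VarClass k} {ops : CycleOps 𝒱}
  {W : WeilCohomology.{u, v} ops} {X Y Z : 𝒱.Obj}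

/-- The sign of a permutation of a product of classes depends only on the parities. -/
lemma perm_sign (W : WeilCohomology.{u, v} ops) (Z : 𝒱.Obj) {ι : Type*} (p : ι → ℕ)
    {L L' : List ι} (h : L.Perm L') : ∃ s : W.K, (s = 1 ∨ s = -1) ∧
      ∀ a : ι → W.H Z, (∀ i, a i ∈ pty W Z (p i)) → (L.map a).prod = s • (L'.map a).prod := by
  induction h with
  | nil => exact ⟨1, Or.inl rfl, fun a _ => (one_smul _ _).symm⟩
  | cons x _ ih =>
    obtain ⟨s, hs, e⟩ := ih
    exact ⟨s, hs, fun a ha => by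
      rw [List.map_cons, List.map_cons, List.prod_cons, List.prod_cons, e a ha, mul_smul_comm]⟩
  | swap x y l =>
    refine ⟨(-1) ^ (p y * p x), neg_one_pow_eq_or _ _, fun a ha => ?_⟩
    rw [List.map_cons, List.map_cons, List.map_cons, List.map_cons, List.prod_cons,
      List.prod_cons, List.prod_cons, List.prod_cons, ← mul_assoc, pty_comm (ha y) (ha x),
      smul_mul_assoc, mul_assoc]
  | trans _ _ ih1 ih2 =>
    obtain ⟨s, hs, e⟩ := ih1
    obtain ⟨s', hs', e'⟩ := ih2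
    refine ⟨s * s', ?_, fun a ha => by rw [e a ha, e' a ha, smul_smul]⟩
    rcases hs with rfl | rfl <;> rcases hs' with rfl | rfl <;> simp

lemma ofFn_sign (W : WeilCohomology.{u, v} ops) (Z : 𝒱.Obj) {N : ℕ} (p : Fin N → ℕ)
    (σ : Equiv.Perm (Fin N)) : ∃ s : W.K, (s = 1 ∨ s = -1) ∧
      ∀ a : Fin N → W.H Z, (∀ i, a i ∈ pty W Z (p i)) →
        (List.ofFn fun j => a (σ j)).prod = s • (List.ofFn a).prod := by
  obtain ⟨s, hs, e⟩ := perm_sign W Z p (Equiv.Perm.ofFn_comp_perm σ (id : Fin N → Fin N))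
  refine ⟨s, hs, fun a ha => ?_⟩
  have h := e a ha
  rw [List.map_ofFn, List.map_ofFn] at h
  exact h

/-- The effect of a permutation of the factors. -/
lemma permMor_C (W : WeilCohomology.{u, v} ops) (X : 𝒱.Obj) {n : ℕ} (p : Fin (n + 1) → ℕ)
    (σ : Equiv.Perm (Fin (n + 1))) : ∃ s : W.K, (s = 1 ∨ s = -1) ∧
      ∀ v : Fin (n + 1) → W.H X, (∀ j, v j ∈ pty W X (p j)) →
        W.map (permMor X n σ) (extFam W n v) = s • extFam W n fun j => v (σ⁻¹ j) := by
  obtain ⟨s, hs, e⟩ := ofFn_sign W (pow X n) (fun j => p (σ⁻¹ j)) σ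
  refine ⟨s, hs, fun v hv => ?_⟩
  rw [extFam_eq, extFam_eq, map_list_prod, List.map_ofFn]
  rw [← e (fun j => W.map (pr X n j) (v (σ⁻¹ j))) (fun j => pty_map _ (hv _))]
  congr 2
  funext j
  rw [Function.comp_apply, ← W.map_comp, permMor, lifts_pr,
    show σ⁻¹ (σ j) = j from σ.symm_apply_apply j]

/-- The sign. -/
noncomputable def sgnC (W : WeilCohomology.{u, v} ops) (X : 𝒱.Obj) {n : ℕ} (p : Fin (n + 1) → ℕ)
    (σ : Equiv.Perm (Fin (n + 1))) : W.K := (permMor_C W X p σ).choose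

lemma sgnC_pm {n : ℕ} (p : Fin (n + 1) → ℕ) (σ : Equiv.Perm (Fin (n + 1))) :
    sgnC W X p σ = 1 ∨ sgnC W X p σ = -1 := (permMor_C W X p σ).choose_spec.1

lemma sgnC_sq {n : ℕ} (p : Fin (n + 1) → ℕ) (σ : Equiv.Perm (Fin (n + 1))) :
    sgnC W X p σ * sgnC W X p σ = 1 := by
  rcases sgnC_pm (W := W) (X := X) p σ with h | h <;> rw [h] <;> simp

lemma sgnC_ne {n : ℕ} (p : Fin (n + 1) → ℕ) (σ : Equiv.Perm (Fin (n + 1))) :
    sgnC W X p σ ≠ 0 := by
  rcases sgnC_pm (W := W) (X := X) p σ with h | h <;> rw [h] <;> simp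

lemma permMor_sgnC {n : ℕ} (p : Fin (n + 1) → ℕ) (σ : Equiv.Perm (Fin (n + 1)))
    {v : Fin (n + 1) → W.H X} (hv : ∀ j, v j ∈ pty W X (p j)) :
    W.map (permMor X n σ) (extFam W n v) = sgnC W X p σ • extFam W n fun j => v (σ⁻¹ j) :=
  (permMor_C W X p σ).choose_spec.2 v hv

lemma mem_stab {N : ℕ} {e : Fin N → ℕ} {σ : Equiv.Perm (Fin N)} :
    σ ∈ stab e ↔ ∀ j, e (σ j) = e j := by
  rw [stab, Finset.mem_filter]
  exact ⟨fun h => h.2, fun h => ⟨Finset.mem_univ _, h⟩⟩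

lemma one_mem_stab {N : ℕ} {e : Fin N → ℕ} : 1 ∈ stab e := mem_stab.2 fun _ => rfl

lemma inv_mem_stab {N : ℕ} {e : Fin N → ℕ} {σ : Equiv.Perm (Fin N)} (h : σ ∈ stab e) :
    σ⁻¹ ∈ stab e := by
  rw [mem_stab] at h ⊢
  intro j
  have := h (σ⁻¹ j)
  rw [show σ (σ⁻¹ j) = j from σ.apply_symm_apply j] at this
  exact this.symm

lemma mul_mem_stab {N : ℕ} {e : Fin N → ℕ} {σ τ : Equiv.Perm (Fin N)} (h : σ ∈ stab e)
    (h' : τ ∈ stab e) : σ * τ ∈ stab e := by
  rw [mem_stab] at h h' ⊢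
  intro j
  rw [Equiv.Perm.mul_apply, h, h']

lemma swap_mem_stab {N : ℕ} {e : Fin N → ℕ} {a b : Fin N} (h : e a = e b) :
    Equiv.swap a b ∈ stab e := by
  rw [mem_stab]
  intro j
  by_cases hja : j = a
  · rw [hja, Equiv.swap_apply_left, h]
  · by_cases hjb : j = b
    · rw [hjb, Equiv.swap_apply_right, h]
    · rw [Equiv.swap_apply_of_ne_of_ne hja hjb]

lemma sign_sq {K : Type*} [Ring K] {N : ℕ} (σ : Equiv.Perm (Fin N)) :
    ((Equiv.Perm.sign σ : ℤ) : K) * ((Equiv.Perm.sign σ : ℤ) : K) = 1 := by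
  rcases Int.units_eq_one_or (Equiv.Perm.sign σ) with h | h <;> rw [h] <;> simp

lemma cdet_perm {n : ℕ} {e : Fin (n + 1) → ℕ} {τ : Equiv.Perm (Fin (n + 1))} (hτ : τ ∈ stab e)
    (v : Fin (n + 1) → W.H X) : cdet W n e (fun j => v (τ j)) =
      ((Equiv.Perm.sign τ : ℤ) : W.K) • cdet W n e v := by
  rw [cdet, cdet, Finset.smul_sum]
  refine Finset.sum_bij (fun σ _ => τ * σ) ?_ ?_ ?_ ?_
  · exact fun σ hσ => mul_mem_stab hτ hσ
  · exact fun σ _ σ' _ h => mul_left_cancel h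
  · intro σ hσ
    exact ⟨τ⁻¹ * σ, mul_mem_stab (inv_mem_stab hτ) hσ, by rw [mul_inv_cancel_left]⟩
  · intro σ _
    rw [smul_smul, Equiv.Perm.sign_mul, Units.val_mul, Int.cast_mul, ← mul_assoc, sign_sq,
      one_mul]
    rfl

lemma cdet_zero {n : ℕ} {e : Fin (n + 1) → ℕ} {v : Fin (n + 1) → W.H X} {a b : Fin (n + 1)}
    (hab : a ≠ b) (he : e a = e b) (hv : v a = v b) : cdet W n e v = 0 := by
  have h1 := cdet_perm (W := W) (swap_mem_stab he) v
  have h2 : (fun j => v (Equiv.swap a b j)) = v := by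
    funext j
    by_cases hja : j = a
    · rw [hja, Equiv.swap_apply_left, hv]
    · by_cases hjb : j = b
      · rw [hjb, Equiv.swap_apply_right, hv]
      · rw [Equiv.swap_apply_of_ne_of_ne hja hjb]
  rw [h2, Equiv.Perm.sign_swap hab] at h1
  have h3 : (2 : W.K) • cdet W n e v = 0 := by
    rw [two_smul]
    nth_rewrite 1 [h1]
    simp
  exact (smul_eq_zero.1 h3).resolve_left two_ne_zero

/-- The coloured antisymmetrisation operator. -/
noncomputable def asymC (W : WeilCohomology.{u, v} ops) (X : 𝒱.Obj) (n : ℕ)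
    (e : Fin (n + 1) → ℕ) : W.H (pow X n) →ₗ[W.K] W.H (pow X n) :=
  ∑ σ ∈ stab e, (((Equiv.Perm.sign σ : ℤ) : W.K) * sgnC W X e σ) •
    (W.map (permMor X n σ)).toLinearMap

lemma asymC_ext {n : ℕ} {e : Fin (n + 1) → ℕ} {v : Fin (n + 1) → W.H X}
    (hv : ∀ j, v j ∈ pty W X (e j)) : asymC W X n e (extFam W n v) = cdet W n e v := by
  rw [asymC, LinearMap.sum_apply, cdet]
  refine Finset.sum_bij (fun σ _ => σ⁻¹) ?_ ?_ ?_ ?_
  · exact fun σ hσ => inv_mem_stab hσ
  · exact fun σ _ σ' _ h => inv_injective h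
  · exact fun σ hσ => ⟨σ⁻¹, inv_mem_stab hσ, inv_inv σ⟩
  · intro σ _
    rw [LinearMap.smul_apply, AlgHom.toLinearMap_apply, permMor_sgnC e σ hv, smul_smul,
      mul_assoc, sgnC_sq, mul_one, Equiv.Perm.sign_inv]

/-- The coloured antisymmetrisation operator on the first factor. -/
noncomputable def asymLC (W : WeilCohomology.{u, v} ops) (X Y : 𝒱.Obj) (n : ℕ)
    (e : Fin (n + 1) → ℕ) : W.H ((pow X n).prod Y) →ₗ[W.K] W.H ((pow X n).prod Y) :=
  ∑ σ ∈ stab e, (((Equiv.Perm.sign σ : ℤ) : W.K) * sgnC W X e σ) •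
    (W.map (Obj.lift (fst (pow X n) Y ≫ permMor X n σ) (snd (pow X n) Y))).toLinearMap

lemma asymLC_ext {n : ℕ} {e : Fin (n + 1) → ℕ} (a : W.H (pow X n)) (b : W.H Y) :
    asymLC W X Y n e (ext a b) = ext (asymC W X n e a) b := by
  rw [asymLC, LinearMap.sum_apply, asymC, LinearMap.sum_apply]
  change _ = W.map (fst (pow X n) Y) (∑ σ ∈ stab e, _) * W.map (snd (pow X n) Y) b
  rw [map_sum, Finset.sum_mul]
  refine Finset.sum_congr rfl fun σ _ => ?_
  rw [LinearMap.smul_apply, LinearMap.smul_apply, AlgHom.toLinearMap_apply,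
    AlgHom.toLinearMap_apply, map_smul, smul_mul_assoc, ext, map_mul, ← W.map_comp, ← W.map_comp,
    Obj.lift_fst, Obj.lift_snd, W.map_comp]

lemma pm_mem (C : ClSys W) {s : W.K} (hs : s = 1 ∨ s = -1) {x : W.H Z} (hx : x ∈ C.S Z) :
    s • x ∈ C.S Z := by
  rcases hs with rfl | rfl
  · rwa [one_smul]
  · rw [neg_one_smul]
    exact AddSubgroup.neg_mem _ hx

lemma asymLC_cl (C : ClSys W) {n : ℕ} {e : Fin (n + 1) → ℕ} {x : W.H ((pow X n).prod Y)}
    (hx : x ∈ C.S ((pow X n).prod Y)) : asymLC W X Y n e x ∈ C.S ((pow X n).prod Y) := by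
  rw [asymLC, LinearMap.sum_apply]
  refine AddSubgroup.sum_mem _ fun σ _ => ?_
  rw [LinearMap.smul_apply, mul_smul]
  have h1 := C.sign 1 (pm_mem C (sgnC_pm (W := W) (X := X) e σ) (C.map (Obj.lift
    (fst (pow X n) Y ≫ permMor X n σ) (snd (pow X n) Y)) hx)) (Equiv.Perm.sign σ)
  rwa [pow_one] at h1

/-! ### Words -/

lemma extFam_ptyC {n : ℕ} {f : Fin (n + 1) → ℕ} {v : Fin (n + 1) → W.H X}
    (hv : ∀ j, v j ∈ pty W X (f j)) : extFam W n v ∈ pty W (pow X n) (∑ j, f j) := by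
  induction n with
  | zero =>
    rw [Fin.sum_univ_succ, Fin.sum_univ_zero, add_zero]
    exact hv 0
  | succ n ih =>
    rw [Fin.sum_univ_castSucc]
    exact pty_mul (pty_map (fst (pow X n) X) (ih fun j => hv j.castSucc))
      (pty_map (snd (pow X n) X) (hv (Fin.last (n + 1))))

lemma cdet_pty {n : ℕ} {e : Fin (n + 1) → ℕ} {v : Fin (n + 1) → W.H X}
    (hv : ∀ j, v j ∈ pty W X (e j)) : cdet W n e v ∈ pty W (pow X n) (∑ j, e j) := by
  refine Submodule.sum_mem _ fun σ hσ => Submodule.smul_mem _ _ ?_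
  refine extFam_ptyC fun j => ?_
  rw [← mem_stab.1 hσ j]
  exact hv _

/-- Products of the forms of the single colours. -/
lemma words_C (C : ClSys W) {B : Type} [Fintype B] (col : B → ℕ) {x y : B → W.H X}
    (hx : ∀ b, x b ∈ pty W X (col b)) (hy : ∀ b, y b ∈ pty W X (col b))
    (h : ∀ c, ∑ b : {b // col b = c}, ext (x b) (y b) ∈ C.S (X.prod X)) {n : ℕ}
    (f : Fin (n + 1) → ℕ) :
    ∑ w : ∀ j, {b // col b = f j}, ext (extFam W n fun j => x (w j))
      (extFam W n fun j => y (w j)) ∈ C.S ((pow X n).prod (pow X n)) := by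
  induction n with
  | zero =>
    have h1 := Equiv.sum_comp (Equiv.piUnique fun j : Fin 1 => {b // col b = f j})
      (fun b => ext (W := W) (x b) (y b))
    have h2 := h (f 0)
    rw [← show (∑ b : {b // col b = f (default : Fin 1)}, ext (x b) (y b)) =
      ∑ b : {b // col b = f 0}, ext (x b) (y b) from rfl, ← h1] at h2
    exact h2
  | succ n ih =>
    have h2 := C.mul (C.map (Obj.lift (fst ((pow X n).prod X) ((pow X n).prod X) ≫
        fst (pow X n) X) (snd ((pow X n).prod X) ((pow X n).prod X) ≫ fst (pow X n) X))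
          (ih fun j => f j.castSucc))
      (C.map (Obj.lift (fst ((pow X n).prod X) ((pow X n).prod X) ≫
        snd (pow X n) X) (snd ((pow X n).prod X) ((pow X n).prod X) ≫ snd (pow X n) X))
          (h (f (Fin.last (n + 1)))))
    have h3 := C.neg_one_pow (f (Fin.last (n + 1)) * ∑ j : Fin (n + 1), f j.castSucc) h2
    rw [← Equiv.sum_comp (Fin.snocEquiv (fun j : Fin (n + 2) => {b // col b = f j})),
      Fintype.sum_prod_type]
    rw [map_sum, map_sum, Finset.sum_mul_sum, Finset.sum_comm, Finset.smul_sum] at h3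
    refine Eq.subst (motive := fun z : W.H (((pow X n).prod X).prod ((pow X n).prod X)) =>
      z ∈ C.S (((pow X n).prod X).prod ((pow X n).prod X))) ?_ h3
    refine Finset.sum_congr rfl fun b _ => ?_
    rw [Finset.smul_sum]
    refine Finset.sum_congr rfl fun w _ => ?_
    have hb : x b ∈ pty W X (f (Fin.last (n + 1))) :=
      (congrArg (fun c => x b ∈ pty W X c) b.2).mp (hx b)
    have hw : extFam W n (fun j => y (w j)) ∈ pty W (pow X n)
        (∑ j : Fin (n + 1), f j.castSucc) :=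
      extFam_ptyC fun j => (congrArg (fun c => y (w j) ∈ pty W X c) (w j).2).mp (hy _)
    rw [← ext_extP _ _ hb hw]
    have e1 : ∀ z : B → W.H X, extFam W (n + 1) (fun j => z
        ((Fin.snocEquiv (fun j : Fin (n + 2) => {b // col b = f j})) (b, w) j)) =
        ext (extFam W n fun j => z (w j)) (z b) := by
      intro z
      change W.map (fst (pow X n) X) (extFam W n fun j => z (Fin.snoc
        (α := fun j : Fin (n + 2) => {b // col b = f j}) w b j.castSucc)) *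
        W.map (snd (pow X n) X) (z (Fin.snoc (α := fun j : Fin (n + 2) => {b // col b = f j}) w b
        (Fin.last (n + 1)))) = _
      simp only [Fin.snoc_castSucc, Fin.snoc_last]
      rfl
    rw [e1, e1]
    rfl

end Pool.Agent.Helper70Ct
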