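import Pool.Agent.Helper70_ct.Ct1

/-!
# The coloured determinant class and the forms of the colours
-/

open CategoryTheory AlgebraicGeometry

universe u v

namespace Pool.Agent.Helper70Ct

open Pool.Agent.H914 Pool.Agent.H914.VarClass Pool.Agent.H914.VarClass.Obj
  Pool.Agent.H914.WeilCohomology Pool.Agent.Helper70Rk Pool.Agent.Helper70Ls Pool.Agent.Helper70Sg

variable {k : Type u} [Field k] {𝒱 : VarClass k} {ops : CycleOps 𝒱}
  {W : WeilCohomology.{u, v} ops} {X Y Z : 𝒱.Obj}

/-- The form of the colour `c`. -/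
noncomputable def gform {n : ℕ} (e : Fin (n + 1) → ℕ) (x y : Fin (n + 1) → W.H X) (c : ℕ) :
    W.H (X.prod X) := ∑ b : {b // e b = c}, ext (x b) (y b)

/-- **The forms of the colours generate the coloured determinant class.** -/
lemma det_clC (C : ClSys W) {n : ℕ} {e : Fin (n + 1) → ℕ} {x y : Fin (n + 1) → W.H X}
    (hx : ∀ b, x b ∈ pty W X (e b)) (hy : ∀ b, y b ∈ pty W X (e b))
    (h : ∀ c, gform e x y c ∈ C.S (X.prod X)) :
    ext (cdet W n e x) (cdet W n e y) ∈ C.S ((pow X n).prod (pow X n)) := by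
  have h1 := asymLC_cl C (e := e) (words_C C e hx hy h e)
  rw [map_sum] at h1
  have h2 : ∀ w : ∀ j, {b // e b = e j},
      asymLC W X (pow X n) n e (ext (extFam W n fun j => x (w j))
        (extFam W n fun j => y (w j))) =
        ext (cdet W n e fun j => x (w j)) (extFam W n fun j => y (w j)) := by
    intro w
    rw [asymLC_ext, asymC_ext fun j => (congrArg (fun c => x (w j) ∈ pty W X c) (w j).2).mp (hx _)]
  rw [Finset.sum_congr rfl (fun w _ => h2 w)] at h1
  have h3 : ∑ w : ∀ j, {b // e b = e j}, ext (cdet W n e fun j => x (w j))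
      (extFam W n fun j => y (w j)) = ∑ σ ∈ stab e, ext (cdet W n e fun j => x (σ j))
        (extFam W n fun j => y (σ j)) := by
    symm
    refine Finset.sum_bij_ne_zero
      (fun σ hσ _ => fun j => ⟨σ j, mem_stab.1 hσ j⟩) ?_ ?_ ?_ ?_
    · exact fun _ _ _ => Finset.mem_univ _
    · intro σ hσ _ τ hτ _ h4
      apply Equiv.ext
      intro j
      exact congrArg Subtype.val (congrFun h4 j)
    · intro w _ hw
      have h5 : Function.Injective fun j => (w j : Fin (n + 1)) := by
        intro a b hab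
        by_contra hne
        apply hw
        have h6 : cdet W n e (fun j => x (w j)) = 0 :=
          cdet_zero hne (by
            have ha := (w a).2
            have hb := (w b).2
            rw [← ha, ← hb]
            exact congrArg e hab) (by
            rw [show (w a : Fin (n + 1)) = w b from hab])
        rw [h6, ext_zero_left]
      set σ : Equiv.Perm (Fin (n + 1)) :=
        Equiv.ofBijective _ (Finite.injective_iff_bijective.1 h5) with hσ
      exact ⟨σ, mem_stab.2 fun j => (w j).2, hw, rfl⟩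
    · intro σ _ _
      rfl
  rw [h3] at h1
  have h4 : ∀ σ ∈ stab e, ext (cdet W n e fun j => x (σ j)) (extFam W n fun j => y (σ j)) =
      ext (cdet W n e x) (((Equiv.Perm.sign σ : ℤ) : W.K) • extFam W n fun j => y (σ j)) := by
    intro σ hσ
    rw [cdet_perm hσ, ext_smul_left, ext_smul_right]
  rw [Finset.sum_congr rfl h4, ← ext_sum_right] at h1
  exact h1

/-! ### Contraction -/

/-- The traces of products of words. -/
lemma tr_wordsC {ρ : ℕ → W.H X} (hρ : ∀ c, ρ c ∈ pty W X 0) {n : ℕ} (f : Fin (n + 1) → ℕ) :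
    ∃ s : W.K, s ≠ 0 ∧ ∀ v v' : Fin (n + 1) → W.H X, (∀ j, v j ∈ pty W X (f j)) →
      (∀ j, v' j ∈ pty W X (f j)) →
      W.tr (pow X n) (extFam W n (fun j => ρ (f j)) * (extFam W n v * extFam W n v')) =
        s * ∏ j, W.tr X (ρ (f j) * (v j * v' j)) := by
  induction n with
  | zero =>
    refine ⟨1, one_ne_zero, fun v v' _ _ => ?_⟩
    rw [Fin.prod_univ_succ, Fin.prod_univ_zero, mul_one, one_mul]
    rfl
  | succ n ih =>
    obtain ⟨s, hs, h⟩ := ih fun j => f j.castSucc
    refine ⟨(-1) ^ (f (Fin.last (n + 1)) * ∑ j : Fin (n + 1), f j.castSucc) * s,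
      mul_ne_zero (pow_ne_zero _ (neg_ne_zero.2 one_ne_zero)) hs, fun v v' hv hv' => ?_⟩
    rw [Fin.prod_univ_castSucc]
    change W.tr ((pow X n).prod X) (ext (extFam W n fun j => ρ (f j.castSucc))
        (ρ (f (Fin.last (n + 1)))) *
      (ext (extFam W n fun j => v j.castSucc) (v (Fin.last (n + 1))) *
        ext (extFam W n fun j => v' j.castSucc) (v' (Fin.last (n + 1))))) = _
    rw [ext_mulP _ _ (hv _) (extFam_ptyC fun j => hv' j.castSucc), mul_smul_comm,
      ext_mul_evenP (i := 0) _ _ _ (by rw [mul_zero]; exact hρ _), map_smul, tr_ext_eq,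
      h _ _ (fun j => hv _) (fun j => hv' _), smul_eq_mul]
    ring

/-- Averages over the permutations preserving the colours. -/
lemma sum_stab_point {N : ℕ} {M K : Type*} [Field K] [CharZero K] [AddCommGroup M] [Module K M]
    (e : Fin N → ℕ) (p : Fin N) (F : Fin N → M) (S : Submodule K M)
    (h : ∑ σ ∈ stab e, F (σ p) ∈ S) : ∑ b : {b // e b = e p}, F b ∈ S := by
  have h1 : ∀ p' : {b // e b = e p}, ∑ σ ∈ stab e, F (σ p') = ∑ σ ∈ stab e, F (σ p) := by
    intro p'
    have hsw : Equiv.swap p (p' : Fin N) ∈ stab e := swap_mem_stab p'.2.symm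
    refine Finset.sum_bij (fun σ _ => σ * Equiv.swap p (p' : Fin N)) ?_ ?_ ?_ ?_
    · exact fun σ hσ => mul_mem_stab hσ hsw
    · exact fun σ _ σ' _ h => mul_right_cancel h
    · intro σ hσ
      exact ⟨σ * (Equiv.swap p (p' : Fin N))⁻¹, mul_mem_stab hσ (inv_mem_stab hsw), by
        rw [inv_mul_cancel_right]⟩
    · intro σ _
      rw [Equiv.Perm.mul_apply, Equiv.swap_apply_left]
  have h2 : ∑ p' : {b // e b = e p}, ∑ σ ∈ stab e, F (σ p') =
      (stab e).card • ∑ b : {b // e b = e p}, F b := by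
    rw [Finset.sum_comm, ← Finset.sum_const]
    refine Finset.sum_congr rfl fun σ hσ => ?_
    refine Finset.sum_bij (fun (b : {b // e b = e p}) _ =>
      (⟨σ b, (mem_stab.1 hσ b).trans b.2⟩ : {b // e b = e p})) ?_ ?_ ?_ ?_
    · exact fun _ _ => Finset.mem_univ _
    · intro a _ b _ hab
      exact Subtype.ext (σ.injective (congrArg Subtype.val hab))
    · intro b _
      exact ⟨⟨σ⁻¹ b, (mem_stab.1 (inv_mem_stab hσ) b).trans b.2⟩, Finset.mem_univ _,
        Subtype.ext (σ.apply_symm_apply b)⟩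
    · exact fun _ _ => rfl
  have h3 : ∑ p' : {b // e b = e p}, ∑ σ ∈ stab e, F (σ p') ∈ S :=
    Submodule.sum_mem _ fun p' _ => by rw [h1]; exact h
  rw [h2, ← Nat.cast_smul_eq_nsmul K] at h3
  have h4 := Submodule.smul_mem _ (((stab e).card : K))⁻¹ h3
  rwa [smul_smul, inv_mul_cancel₀ (by
    exact_mod_cast (Finset.card_pos.2 ⟨1, one_mem_stab⟩).ne'), one_smul] at h4

/-- **The coloured determinant class generates the form of the last colour.** -/
lemma form_last {ρ : ℕ → W.H X} (hρ : ∀ c, ρ c ∈ pty W X 0) (hρA : ∀ c, ρ c ∈ Alg W X) {n : ℕ}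
    {e : Fin (n + 1) → ℕ} {x y : Fin (n + 1) → W.H X} (hx : ∀ b, x b ∈ pty W X (e b))
    (hy : ∀ b, y b ∈ pty W X (e b))
    (hxy : ∀ a b, e a = e b → W.tr X (ρ (e a) * (x a * y b)) = if a = b then 1 else 0)
    (h : ext (cdet W n e x) (cdet W n e y) ∈ Alg W ((pow X n).prod (pow X n))) :
    gform e x y (e (Fin.last n)) ∈ Alg W (X.prod X) := by
  cases n with
  | zero =>
    have e0 : ∀ z : Fin (0 + 1) → W.H X, cdet W 0 e z = z 0 := by
      intro z
      have hst : stab e = {1} := by
        ext σ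
        rw [Finset.mem_singleton]
        constructor
        · intro _
          exact Equiv.ext fun a => Fin.ext (by
            have := (σ a).2; have := a.2; rw [Equiv.Perm.one_apply]; omega)
        · rintro rfl
          exact one_mem_stab
      rw [cdet, hst, Finset.sum_singleton, Equiv.Perm.sign_one]
      simp [extFam]
    rw [e0, e0] at h
    rw [gform, Fintype.sum_eq_single (⟨0, by
      rw [show (0 : Fin (0 + 1)) = Fin.last 0 from rfl]⟩ : {b // e b = e (Fin.last 0)})]
    · exact h
    · intro b hb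
      exact absurd (Subtype.ext (Fin.ext (by have := b.1.2; simp only [Fin.val_zero]; omega))) hb
  | succ n =>
    obtain ⟨s, hs, hs'⟩ := tr_wordsC (W := W) hρ fun j : Fin (n + 1) => e j.castSucc
    set Ξ := extFam W n fun j : Fin (n + 1) => ρ (e j.castSucc) with hΞ
    have hΞA : Ξ ∈ Alg W (pow X n) := by
      have key : ∀ (m : ℕ) (z : Fin (m + 1) → W.H X), (∀ j, z j ∈ Alg W X) →
          extFam W m z ∈ Alg W (pow X m) := by
        intro m
        induction m with
        | zero => exact fun z hz => hz 0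
        | succ m ih =>
          exact fun z hz => Alg.mul (Alg.map _ (ih _ fun j => hz j.castSucc))
            (Alg.map _ (hz (Fin.last (m + 1))))
      exact key n _ fun j => hρA _
    have h1 := ctr_alg hΞA (X := X) (Z := pow X n) h
    set s' : W.K := (-1) ^ (e (Fin.last (n + 1)) * ∑ j : Fin (n + 1), e j.castSucc) * s
      with hs'def
    have hs'0 : s' ≠ 0 := mul_ne_zero (pow_ne_zero _ (neg_ne_zero.2 one_ne_zero)) hs
    have hxσ : ∀ σ ∈ stab e, ∀ j, x (σ j) ∈ pty W X (e j) := fun σ hσ j => by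
      have := hx (σ j)
      rwa [mem_stab.1 hσ j] at this
    have hyσ : ∀ σ ∈ stab e, ∀ j, y (σ j) ∈ pty W X (e j) := fun σ hσ j => by
      have := hy (σ j)
      rwa [mem_stab.1 hσ j] at this
    have h2 : ∀ σ ∈ stab e, ∀ τ ∈ stab e,
        ctr Ξ X (ext (X := (pow X n).prod X) (Y := (pow X n).prod X)
          (extFam W (n + 1) fun j => x (σ j)) (extFam W (n + 1) fun j => y (τ j))) =
          (s' * if σ = τ then 1 else 0) •
            ext (x (σ (Fin.last (n + 1)))) (y (τ (Fin.last (n + 1)))) := by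
      intro σ hσ τ hτ
      change ctr Ξ X (ext
        (ext (extFam W n fun j => x (σ j.castSucc)) (x (σ (Fin.last (n + 1)))))
        (ext (extFam W n fun j => y (τ j.castSucc)) (y (τ (Fin.last (n + 1)))))) = _
      rw [ctr_extP _ _ _ (extFam_ptyC fun j => hyσ τ hτ j.castSucc) (hxσ σ hσ _),
        hs' _ _ (fun j => hxσ σ hσ _) (fun j => hyσ τ hτ _), hs'def]
      congr 1
      rw [← mul_assoc]
      congr 1
      have hval : ∀ j : Fin (n + 1), W.tr X (ρ (e j.castSucc) *
          (x (σ j.castSucc) * y (τ j.castSucc))) =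
            if σ j.castSucc = τ j.castSucc then 1 else 0 := by
        intro j
        have h3 := hxy (σ j.castSucc) (τ j.castSucc)
          ((mem_stab.1 hσ _).trans (mem_stab.1 hτ _).symm)
        rwa [mem_stab.1 hσ] at h3
      by_cases hστ : σ = τ
      · subst hστ
        rw [if_pos rfl]
        exact Finset.prod_eq_one fun j _ => by rw [hval, if_pos rfl]
      · rw [if_neg hστ]
        by_contra h3
        apply hστ
        have h4 : ∀ j : Fin (n + 1), σ j.castSucc = τ j.castSucc := by
          intro j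
          by_contra h5
          apply h3
          exact Finset.prod_eq_zero (Finset.mem_univ j) (by rw [hval, if_neg h5])
        apply Equiv.ext
        intro a
        refine Fin.lastCases ?_ h4 a
        obtain ⟨b, hb⟩ := σ.surjective (τ (Fin.last (n + 1)))
        have h6 : b = Fin.last (n + 1) := by
          by_contra h7
          obtain ⟨c, rfl⟩ := Fin.exists_castSucc_eq.2 h7
          rw [h4] at hb
          exact h7 (τ.injective hb)
        rw [h6] at hb
        exact hb
    have h3 : ctr Ξ X (ext (X := (pow X n).prod X) (Y := (pow X n).prod X)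
        (cdet W (n + 1) e x) (cdet W (n + 1) e y)) =
        s' • ∑ σ ∈ stab e, ext (x (σ (Fin.last (n + 1)))) (y (σ (Fin.last (n + 1)))) := by
      have h4 : ext (X := (pow X n).prod X) (Y := (pow X n).prod X)
          (cdet W (n + 1) e x) (cdet W (n + 1) e y) =
          ∑ σ ∈ stab e, ∑ τ ∈ stab e,
            (((Equiv.Perm.sign σ : ℤ) : W.K) * ((Equiv.Perm.sign τ : ℤ) : W.K)) •
              ext (X := (pow X n).prod X) (Y := (pow X n).prod X)
                (extFam W (n + 1) fun j => x (σ j)) (extFam W (n + 1) fun j => y (τ j)) := by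
        rw [cdet, cdet]
        refine (ext_sum_left (X := (pow X n).prod X) _ _ _).trans ?_
        refine Finset.sum_congr rfl fun σ _ => ?_
        refine (ext_sum_right (X := (pow X n).prod X) (Y := (pow X n).prod X) _ _ _).trans ?_
        refine Finset.sum_congr rfl fun τ _ => ?_
        refine (ext_smul_left (X := (pow X n).prod X) _ _ _).trans ?_
        rw [mul_smul]
        congr 1
        exact ext_smul_right (X := (pow X n).prod X) (Y := (pow X n).prod X) _ _ _
      rw [h4, map_sum, Finset.smul_sum]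
      refine Finset.sum_congr rfl fun σ hσ => ?_
      rw [map_sum, Finset.sum_eq_single σ]
      · rw [map_smul, h2 σ hσ σ hσ, if_pos rfl, mul_one, smul_smul, sign_sq, one_mul]
      · intro τ hτ hne
        rw [map_smul, h2 σ hσ τ hτ, if_neg (Ne.symm hne), mul_zero, zero_smul, smul_zero]
      · exact fun h => absurd hσ h
    have h5 : s' • ∑ σ ∈ stab e,
        ext (x (σ (Fin.last (n + 1)))) (y (σ (Fin.last (n + 1)))) ∈ Alg W (X.prod X) := by
      rw [← h3]
      exact h1
    have h6 := Submodule.smul_mem _ s'⁻¹ h5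
    rw [smul_smul, inv_mul_cancel₀ hs'0, one_smul] at h6
    exact sum_stab_point (K := W.K) e (Fin.last (n + 1)) (fun a => ext (x a) (y a)) _ h6

/-! ### Permutation of the slots -/

lemma cdet_reorder {n : ℕ} {e : Fin (n + 1) → ℕ} {v : Fin (n + 1) → W.H X}
    (hv : ∀ j, v j ∈ pty W X (e j)) (τ : Equiv.Perm (Fin (n + 1))) :
    W.map (permMor X n τ) (cdet W n e v) =
      sgnC W X e τ • cdet W n (fun j => e (τ⁻¹ j)) fun j => v (τ⁻¹ j) := by
  rw [cdet, map_sum, cdet, Finset.smul_sum]
  refine Finset.sum_bij (fun σ _ => τ * σ * τ⁻¹) ?_ ?_ ?_ ?_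
  · intro σ hσ
    rw [mem_stab]
    intro j
    rw [Equiv.Perm.mul_apply, Equiv.Perm.mul_apply,
      show τ⁻¹ (τ (σ (τ⁻¹ j))) = σ (τ⁻¹ j) from τ.symm_apply_apply _, mem_stab.1 hσ]
  · intro σ _ σ' _ h
    exact mul_left_cancel (mul_right_cancel h)
  · intro σ hσ
    refine ⟨τ⁻¹ * σ * τ, ?_, by group⟩
    rw [mem_stab]
    intro j
    have h1 := mem_stab.1 hσ (τ j)
    rw [show τ⁻¹ (τ j) = j from τ.symm_apply_apply _] at h1
    rw [Equiv.Perm.mul_apply, Equiv.Perm.mul_apply, h1]
  · intro σ hσ
    rw [map_smul, permMor_sgnC e τ (v := fun j => v (σ j)) (fun j => by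
      have := hv (σ j)
      rwa [mem_stab.1 hσ j] at this), smul_comm]
    congr 1
    have h1 : Equiv.Perm.sign (τ * σ * τ⁻¹) = Equiv.Perm.sign σ := by
      rw [Equiv.Perm.sign_mul, Equiv.Perm.sign_mul, Equiv.Perm.sign_inv, mul_comm
        (Equiv.Perm.sign τ), mul_assoc, Int.units_mul_self, mul_one]
    rw [h1]
    congr 2
    funext j
    rw [Equiv.Perm.mul_apply, Equiv.Perm.mul_apply,
      show τ⁻¹ (τ (σ (τ⁻¹ j))) = σ (τ⁻¹ j) from τ.symm_apply_apply _]

/-- **The coloured determinant class generates all forms.** -/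
lemma form_C {ρ : ℕ → W.H X} (hρ : ∀ c, ρ c ∈ pty W X 0) (hρA : ∀ c, ρ c ∈ Alg W X) {n : ℕ}
    {e : Fin (n + 1) → ℕ} {x y : Fin (n + 1) → W.H X} (hx : ∀ b, x b ∈ pty W X (e b))
    (hy : ∀ b, y b ∈ pty W X (e b))
    (hxy : ∀ a b, e a = e b → W.tr X (ρ (e a) * (x a * y b)) = if a = b then 1 else 0)
    (h : ext (cdet W n e x) (cdet W n e y) ∈ Alg W ((pow X n).prod (pow X n))) (c : ℕ) :
    gform e x y c ∈ Alg W (X.prod X) := by
  by_cases hc : ∃ p, e p = c
  · obtain ⟨p, rfl⟩ := hc
    set τ : Equiv.Perm (Fin (n + 1)) := Equiv.swap p (Fin.last n) with hτ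
    have h1 := Alg.map (Obj.lift (fst (pow X n) (pow X n) ≫ permMor X n τ)
      (snd (pow X n) (pow X n) ≫ permMor X n τ)) h
    have h2 : W.map (Obj.lift (fst (pow X n) (pow X n) ≫ permMor X n τ)
        (snd (pow X n) (pow X n) ≫ permMor X n τ)) (ext (cdet W n e x) (cdet W n e y)) =
        ext (W.map (permMor X n τ) (cdet W n e x)) (W.map (permMor X n τ) (cdet W n e y)) := by
      rw [ext, map_mul, ← W.map_comp, ← W.map_comp, Obj.lift_fst, Obj.lift_snd, W.map_comp,
        W.map_comp, ext]
    rw [h2, cdet_reorder hx, cdet_reorder hy, ext_smul_left, ext_smul_right, smul_smul, sgnC_sq,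
      one_smul] at h1
    have h3 := form_last hρ hρA (e := fun j => e (τ⁻¹ j)) (x := fun j => x (τ⁻¹ j))
      (y := fun j => y (τ⁻¹ j)) (fun b => hx _) (fun b => hy _) (fun a b hab => by
        rw [hxy _ _ hab]
        simp only [EmbeddingLike.apply_eq_iff_eq]) h1
    have h4 : e (τ⁻¹ (Fin.last n)) = e p := by
      rw [hτ, Equiv.swap_inv, Equiv.swap_apply_right]
    simp only [h4] at h3
    have h5 : gform (fun j => e (τ⁻¹ j)) (fun j => x (τ⁻¹ j)) (fun j => y (τ⁻¹ j)) (e p) =
        gform e x y (e p) := by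
      rw [gform, gform]
      refine Finset.sum_bij (fun (b : {b // e (τ⁻¹ b) = e p}) _ =>
        (⟨τ⁻¹ b, b.2⟩ : {b // e b = e p})) ?_ ?_ ?_ ?_
      · exact fun _ _ => Finset.mem_univ _
      · intro a _ b _ hab
        exact Subtype.ext ((τ⁻¹).injective (congrArg Subtype.val hab))
      · intro b _
        refine ⟨⟨τ b, ?_⟩, Finset.mem_univ _, Subtype.ext (τ.symm_apply_apply _)⟩
        rw [show τ⁻¹ (τ b) = b from τ.symm_apply_apply _]
        exact b.2
      · exact fun _ _ => rfl
    rwa [h5] at h3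
  · have h1 : gform e x y c = 0 := by
      rw [gform]
      exact Finset.sum_eq_zero fun b _ => absurd ⟨b.1, b.2⟩ hc
    rw [h1]
    exact Submodule.zero_mem _

end Pool.Agent.Helper70Ct
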