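import Pool.Agent.Helper70_ct.Ct2

/-!
# Homogeneous bases
-/

open CategoryTheory AlgebraicGeometry

universe u v

namespace Pool.Agent.Helper70Ct

open Pool.Agent.H914 Pool.Agent.H914.VarClass Pool.Agent.H914.VarClass.Obj
  Pool.Agent.H914.WeilCohomology Pool.Agent.Helper70Rk Pool.Agent.Helper70Ls Pool.Agent.Helper70Sg

variable {k : Type u} [Field k] {𝒱 : VarClass k} {ops : CycleOps 𝒱}
  {W : WeilCohomology.{u, v} ops} {X Y Z : 𝒱.Obj}

lemma IsHomBasis.pty {U : Submodule W.K (W.H X)} {n : ℕ} {e : Fin (n + 1) → ℕ}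
    {v : Fin (n + 1) → W.H X} (h : IsHomBasis W X U n e v) (j : Fin (n + 1)) :
    v j ∈ Helper70Sg.pty W X (e j) := gr_le_pty rfl (h.1 j)

/-! ### Multilinearity -/

/-- The external product as a multilinear map. -/
noncomputable def extM (W : WeilCohomology.{u, v} ops) (X : 𝒱.Obj) (n : ℕ) :
    MultilinearMap W.K (fun _ : Fin (n + 1) => W.H X) (W.H (pow X n)) :=
  (MultilinearMap.mkPiAlgebraFin W.K (n + 1) (W.H (pow X n))).compLinearMap
    (fun j => (W.map (pr X n j)).toLinearMap)

lemma extM_apply (n : ℕ) (v : Fin (n + 1) → W.H X) : extM W X n v = extFam W n v := by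
  rw [extM, MultilinearMap.compLinearMap_apply, MultilinearMap.mkPiAlgebraFin_apply, extFam_eq]
  rfl

/-- The coloured determinant class as a multilinear map. -/
noncomputable def cdetM (W : WeilCohomology.{u, v} ops) (X : 𝒱.Obj) (n : ℕ)
    (e : Fin (n + 1) → ℕ) : MultilinearMap W.K (fun _ : Fin (n + 1) => W.H X) (W.H (pow X n)) :=
  ∑ σ ∈ stab e, ((Equiv.Perm.sign σ : ℤ) : W.K) • (extM W X n).domDomCongr σ

lemma cdetM_apply (n : ℕ) (e : Fin (n + 1) → ℕ) (v : Fin (n + 1) → W.H X) :
    cdetM W X n e v = cdet W n e v := by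
  rw [cdetM, sum_apply, cdet]
  refine Finset.sum_congr rfl fun σ _ => ?_
  rw [smul_apply, MultilinearMap.domDomCongr_apply, extM_apply]

/-- Families in the span of a homogeneous family. -/
lemma cdet_span {n : ℕ} {e : Fin (n + 1) → ℕ} {v v' : Fin (n + 1) → W.H X}
    (hv : ∀ j, v j ∈ W.gr X (e j)) (hv' : ∀ j, v' j ∈ W.gr X (e j))
    (h : ∀ j, v' j ∈ Submodule.span W.K (Set.range v)) :
    ∃ r : W.K, cdet W n e v' = r • cdet W n e v := by
  choose g hg using fun j => (Submodule.mem_span_range_iff_exists_fun W.K).1 (h j)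
  have h1 : ∀ j, v' j = ∑ b, (if e b = e j then g j b else 0) • v b := by
    intro j
    have h2 := congrArg (proj (W.isInternal X) (e j)) (hg j)
    rw [proj_same _ (hv' j), map_sum] at h2
    rw [← h2]
    refine Finset.sum_congr rfl fun b _ => ?_
    rw [map_smul]
    split_ifs with hb
    · rw [← hb, proj_same _ (hv b)]
    · rw [proj_ne _ (hv b) hb, smul_zero, zero_smul]
  have h3 : cdetM W X n e v' ∈ Submodule.span W.K {cdet W n e v} := by
    rw [show v' = fun j => ∑ b, (if e b = e j then g j b else 0) • v b from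
      funext h1, MultilinearMap.map_sum]
    refine Submodule.sum_mem _ fun u _ => ?_
    rw [MultilinearMap.map_smul_univ, cdetM_apply]
    by_cases hu : ∀ j, e (u j) = e j
    · refine Submodule.smul_mem _ _ ?_
      by_cases hinj : Function.Injective u
      · set σ : Equiv.Perm (Fin (n + 1)) :=
          Equiv.ofBijective u (Finite.injective_iff_bijective.1 hinj) with hσ
        have h4 := cdet_perm (W := W) (e := e) (τ := σ) (mem_stab.2 hu) v
        have h5 : cdet W n e (fun j => v (u j)) =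
          ((Equiv.Perm.sign σ : ℤ) : W.K) • cdet W n e v := h4
        rw [h5]
        exact Submodule.smul_mem _ _ (Submodule.mem_span_singleton_self _)
      · have h4 : ∃ a b, u a = u b ∧ a ≠ b := by
          by_contra hcon
          push Not at hcon
          exact hinj fun a b hab => hcon a b hab
        obtain ⟨a, b, hab, hne⟩ := h4
        have h5 : cdet W n e (fun j => v (u j)) = 0 :=
          cdet_zero hne (by rw [← hu a, ← hu b, hab]) (by rw [hab])
        rw [h5]
        exact Submodule.zero_mem _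
    · push Not at hu
      obtain ⟨j, hj⟩ := hu
      rw [Finset.prod_eq_zero (Finset.mem_univ j) (if_neg hj), zero_smul]
      exact Submodule.zero_mem _
  obtain ⟨r, hr⟩ := Submodule.mem_span_singleton.1 h3
  rw [cdetM_apply] at hr
  exact ⟨r, hr.symm⟩

/-! ### Dual families -/

/-- The degrees of nonzero classes. -/
lemma deg_le {i : ℕ} {a : W.H X} (ha : a ∈ W.gr X i) (h0 : a ≠ 0) : i ≤ 2 * X.dim := by
  by_contra hcon
  rw [W.gr_eq_bot X i (by omega)] at ha
  exact h0 ((Submodule.mem_bot _).1 ha)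

/-- Dual families of homogeneous classes. -/
lemma exists_dual_hom {n : ℕ} {e : Fin (n + 1) → ℕ} {v : Fin (n + 1) → W.H X}
    (hv : ∀ j, v j ∈ W.gr X (e j)) (hi : LinearIndependent W.K v) :
    ∃ w : Fin (n + 1) → W.H X, (∀ j, w j ∈ W.gr X (2 * X.dim - e j)) ∧
      ∀ a b, W.tr X (w a * v b) = if a = b then 1 else 0 := by
  have key : ∀ a, ∃ w ∈ W.gr X (2 * X.dim - e a), ∀ b, W.tr X (w * v b) =
      if a = b then 1 else 0 := by
    intro a
    obtain ⟨g, hg⟩ := LinearMap.exists_extend ((Module.Basis.span hi).coord a)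
    have hgv : ∀ b, g (v b) = if a = b then 1 else 0 := by
      intro b
      have h1 : g (v b) = (g ∘ₗ (Submodule.span W.K (Set.range v)).subtype)
          (Module.Basis.span hi b) := by
        rw [LinearMap.comp_apply, Submodule.subtype_apply, Module.Basis.span_apply]
      rw [h1, hg, Module.Basis.coord_apply, Module.Basis.repr_self, Finsupp.single_apply]
      simp only [eq_comm]
    obtain ⟨w, hw⟩ := Pool.Agent.TH133.PW.exists_dual (W := W) (X := X) g
    have he : e a ≤ 2 * X.dim := deg_le (hv a) (hi.ne_zero a)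
    refine ⟨(-1 : W.K) ^ (e a * (2 * X.dim - e a)) •
      proj (W.isInternal X) (2 * X.dim - e a) w, Submodule.smul_mem _ _ (proj_mem _ _ _), ?_⟩
    intro b
    rw [smul_mul_assoc, map_smul]
    by_cases hb : e b = e a
    · rw [W.comm (proj_mem (W.isInternal X) _ w) (hv b), map_smul,
        Pool.Agent.TH133.PW.tr_mul_proj he (hb ▸ hv b) w, ← hw, hgv, hb, smul_eq_mul,
        smul_eq_mul, ← mul_assoc, ← pow_add, mul_comm (2 * X.dim - e a), ← two_mul, pow_mul,
        neg_one_sq, one_pow, one_mul]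
    · rw [W.tr_eq_zero (W.mul_mem (proj_mem (W.isInternal X) _ w) (hv b)) (by omega), smul_zero,
        if_neg (fun h => hb (by rw [h]))]
  choose w hw hw' using key
  exact ⟨w, hw, hw'⟩

/-- The coloured determinant classes of dual families pair nontrivially. -/
lemma tr_cdet {ρ : ℕ → W.H X} (hρ : ∀ c, ρ c ∈ pty W X 0) {n : ℕ} {e : Fin (n + 1) → ℕ}
    {x y : Fin (n + 1) → W.H X} (hx : ∀ b, x b ∈ pty W X (e b)) (hy : ∀ b, y b ∈ pty W X (e b))
    (hxy : ∀ a b, e a = e b → W.tr X (ρ (e a) * (x a * y b)) = if a = b then 1 else 0) :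
    W.tr (pow X n) (extFam W n (fun j => ρ (e j)) * (cdet W n e x * cdet W n e y)) ≠ 0 := by
  obtain ⟨s, hs, hs'⟩ := tr_wordsC (W := W) hρ e
  have h2 : ∀ σ ∈ stab e, ∀ τ ∈ stab e,
      W.tr (pow X n) (extFam W n (fun j => ρ (e j)) *
        ((extFam W n fun j => x (σ j)) * extFam W n fun j => y (τ j))) =
        if σ = τ then s else 0 := by
    intro σ hσ τ hτ
    have hxσ : ∀ j, x (σ j) ∈ pty W X (e j) := fun j => by
      have := hx (σ j)
      rwa [mem_stab.1 hσ j] at this
    have hyσ : ∀ j, y (τ j) ∈ pty W X (e j) := fun j => by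
      have := hy (τ j)
      rwa [mem_stab.1 hτ j] at this
    have hval : ∀ j, W.tr X (ρ (e j) * (x (σ j) * y (τ j))) = if σ j = τ j then 1 else 0 := by
      intro j
      have h3 := hxy (σ j) (τ j) ((mem_stab.1 hσ _).trans (mem_stab.1 hτ _).symm)
      rwa [mem_stab.1 hσ] at h3
    rw [hs' _ _ hxσ hyσ]
    by_cases hστ : σ = τ
    · subst hστ
      rw [if_pos rfl, Finset.prod_eq_one fun j _ => by rw [hval, if_pos rfl], mul_one]
    · rw [if_neg hστ]
      obtain ⟨j, hj⟩ : ∃ j, σ j ≠ τ j := by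
        by_contra h3
        push Not at h3
        exact hστ (Equiv.ext h3)
      rw [Finset.prod_eq_zero (Finset.mem_univ j) (by rw [hval, if_neg hj]), mul_zero]
  have h3 : W.tr (pow X n) (extFam W n (fun j => ρ (e j)) * (cdet W n e x * cdet W n e y)) =
      ((stab e).card : W.K) * s := by
    rw [cdet, cdet, Finset.sum_mul_sum, Finset.mul_sum, map_sum]
    have h4 : ∀ σ ∈ stab e, W.tr (pow X n) (extFam W n (fun j => ρ (e j)) *
        ∑ τ ∈ stab e, (((Equiv.Perm.sign σ : ℤ) : W.K) • extFam W n fun j => x (σ j)) *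
            (((Equiv.Perm.sign τ : ℤ) : W.K) • extFam W n fun j => y (τ j))) = s := by
      intro σ hσ
      rw [Finset.mul_sum, map_sum, Finset.sum_eq_single σ]
      · rw [smul_mul_smul_comm, mul_smul_comm, map_smul, h2 σ hσ σ hσ, if_pos rfl, smul_eq_mul,
          sign_sq, one_mul]
      · intro τ hτ hne
        rw [smul_mul_smul_comm, mul_smul_comm, map_smul, h2 σ hσ τ hτ, if_neg (Ne.symm hne),
          smul_zero]
      · exact fun h => absurd hσ h
    rw [Finset.sum_congr rfl h4, Finset.sum_const, nsmul_eq_mul]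
  rw [h3]
  exact mul_ne_zero (by exact_mod_cast (Finset.card_pos.2 ⟨1, one_mem_stab⟩).ne') hs

lemma extFam_one (n : ℕ) : extFam W n (fun _ => (1 : W.H X)) = 1 := by
  induction n with
  | zero => rfl
  | succ n ih =>
    change W.map (fst (pow X n) X) (extFam W n fun _ => (1 : W.H X)) *
      W.map (snd (pow X n) X) 1 = _
    rw [ih, map_one, map_one, mul_one]
    rfl

lemma par_dual {i : ℕ} (h : i ≤ 2 * X.dim) : (2 * X.dim - i) % 2 = i % 2 := by omega

lemma one_pty : (1 : W.H X) ∈ pty W X 0 := gr_le_pty rfl (W.one_mem X)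

/-- The coloured determinant classes of dual families, without weights. -/
lemma tr_cdet_one {n : ℕ} {e : Fin (n + 1) → ℕ} {x y : Fin (n + 1) → W.H X}
    (hx : ∀ b, x b ∈ pty W X (e b)) (hy : ∀ b, y b ∈ pty W X (e b))
    (hxy : ∀ a b, W.tr X (x a * y b) = if a = b then 1 else 0) :
    W.tr (pow X n) (cdet W n e x * cdet W n e y) ≠ 0 := by
  have h := tr_cdet (W := W) (ρ := fun _ => 1) (fun _ => one_pty) hx hy
    (fun a b _ => by rw [one_mul, hxy])
  rwa [extFam_one, one_mul] at h

lemma cdet_ne {n : ℕ} {e : Fin (n + 1) → ℕ} {v : Fin (n + 1) → W.H X}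
    (hv : ∀ j, v j ∈ W.gr X (e j)) (hi : LinearIndependent W.K v) : cdet W n e v ≠ 0 := by
  obtain ⟨w, hw, hwv⟩ := exists_dual_hom hv hi
  intro h0
  have h1 := tr_cdet_one (W := W) (e := e) (x := w) (y := v)
    (fun b => gr_le_pty (par_dual (deg_le (hv b) (hi.ne_zero b))) (hw b))
    (fun b => gr_le_pty rfl (hv b)) hwv
  rw [h0, mul_zero, map_zero] at h1
  exact h1 rfl

/-- **Change of the homogeneous basis.** -/
lemma cdet_change {U : Submodule W.K (W.H X)} {n : ℕ} {e : Fin (n + 1) → ℕ}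
    {v v' : Fin (n + 1) → W.H X} (h : IsHomBasis W X U n e v) (h' : IsHomBasis W X U n e v') :
    ∃ r : W.K, r ≠ 0 ∧ cdet W n e v' = r • cdet W n e v := by
  obtain ⟨r, hr⟩ := cdet_span (W := W) h.1 h'.1 (fun j => by
    rw [h.2.2, ← h'.2.2]
    exact Submodule.subset_span ⟨j, rfl⟩)
  refine ⟨r, ?_, hr⟩
  rintro rfl
  rw [zero_smul] at hr
  exact cdet_ne h'.1 h'.2.1 hr

/-- The numbers of the elements of the different degrees. -/
lemma card_fiber {U : Submodule W.K (W.H X)} {n : ℕ} {e : Fin (n + 1) → ℕ}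
    {v : Fin (n + 1) → W.H X} (h : IsHomBasis W X U n e v) (c : ℕ) :
    Fintype.card {b // e b = c} =
      Module.finrank W.K (U.map (proj (W.isInternal X) c)) := by
  have h1 : U.map (proj (W.isInternal X) c) =
      Submodule.span W.K (Set.range fun b : {b // e b = c} => v b) := by
    rw [← h.2.2, Submodule.map_span, ← Set.range_comp]
    apply le_antisymm
    · rw [Submodule.span_le]
      rintro _ ⟨b, rfl⟩
      rw [Function.comp_apply]
      by_cases hb : e b = c
      · subst hb
        rw [proj_same _ (h.1 b)]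
        exact Submodule.subset_span ⟨⟨b, rfl⟩, rfl⟩
      · rw [proj_ne _ (h.1 b) hb]
        exact Submodule.zero_mem _
    · rw [Submodule.span_le]
      rintro _ ⟨b, rfl⟩
      refine Submodule.subset_span ⟨b, ?_⟩
      rw [Function.comp_apply]
      obtain ⟨b, rfl⟩ := b
      exact proj_same _ (h.1 b)
  rw [h1]
  exact (finrank_span_eq_card (h.2.1.comp (fun b : {b // e b = c} => (b : Fin (n + 1)))
    Subtype.val_injective)).symm

/-- Two homogeneous bases have the same degrees up to the order. -/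
lemma exists_reorder {U : Submodule W.K (W.H X)} {n : ℕ} {e e' : Fin (n + 1) → ℕ}
    {v v' : Fin (n + 1) → W.H X} (h : IsHomBasis W X U n e v) (h' : IsHomBasis W X U n e' v') :
    ∃ τ : Equiv.Perm (Fin (n + 1)), ∀ j, e (τ j) = e' j := by
  have h1 : ∀ c, Nonempty ({a // e' a = c} ≃ {b // e b = c}) := fun c =>
    ⟨Fintype.equivOfCardEq (by rw [card_fiber h, card_fiber h'])⟩
  refine ⟨Equiv.ofFiberEquiv fun c => (h1 c).some, fun j => ?_⟩
  exact Equiv.ofFiberEquiv_map (fun c => (h1 c).some) j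

lemma IsHomBasis.comp {U : Submodule W.K (W.H X)} {n : ℕ} {e : Fin (n + 1) → ℕ}
    {v : Fin (n + 1) → W.H X} (h : IsHomBasis W X U n e v) (τ : Equiv.Perm (Fin (n + 1))) :
    IsHomBasis W X U n (fun j => e (τ j)) fun j => v (τ j) := by
  refine ⟨fun j => h.1 _, h.2.1.comp _ τ.injective, ?_⟩
  rw [← h.2.2]
  congr 1
  ext a
  constructor
  · rintro ⟨j, rfl⟩; exact ⟨τ j, rfl⟩
  · rintro ⟨j, rfl⟩; exact ⟨τ.symm j, congrArg v (τ.apply_symm_apply j)⟩

/-- Two homogeneous bases of the same space: the classes differ by a permutation of the factors and a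
nonzero constant. -/
lemma cdet_any {U : Submodule W.K (W.H X)} {n : ℕ} {e e' : Fin (n + 1) → ℕ}
    {v v' : Fin (n + 1) → W.H X} (h : IsHomBasis W X U n e v) (h' : IsHomBasis W X U n e' v') :
    ∃ (τ : Equiv.Perm (Fin (n + 1))) (r : W.K), r ≠ 0 ∧
      W.map (permMor X n τ) (cdet W n e v) = r • cdet W n e' v' := by
  obtain ⟨τ, hτ⟩ := exists_reorder h h'
  have h1 := cdet_reorder (W := W) h.pty τ⁻¹
  rw [inv_inv] at h1
  have h2 := h.comp τ
  have h3 : (fun j => e (τ j)) = e' := funext hτ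
  rw [h3] at h2 h1
  obtain ⟨r, hr0, hr⟩ := cdet_change (W := W) h' h2
  refine ⟨τ⁻¹, sgnC W X e τ⁻¹ * r, mul_ne_zero (sgnC_ne _ _) hr0, ?_⟩
  rw [h1, hr, smul_smul]

end Pool.Agent.Helper70Ct
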