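import Pool.Agent.Helper70_ct.Ct3

/-!
# One class
-/

open CategoryTheory AlgebraicGeometry

universe u v

namespace Pool.Agent.Helper70Ct

open Pool.Agent.H914 Pool.Agent.H914.VarClass Pool.Agent.H914.VarClass.Obj
  Pool.Agent.H914.WeilCohomology Pool.Agent.Helper70Rk Pool.Agent.Helper70Ls Pool.Agent.Helper70Sg

variable {k : Type u} [Field k] {𝒱 : VarClass k} {ops : CycleOps 𝒱}
  {W : WeilCohomology.{u, v} ops} {X Y Z : 𝒱.Obj}

/-- Contraction of two factors, the first one after an endomorphism. -/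
lemma contract_s {Ξ : W.H Y} {e : ℕ} (hΞA : Ξ ∈ Alg W Y) {δ : W.H Y} (hδ : δ ∈ pty W Y e)
    (s : Y ⟶ Y) (ht : W.tr Y (Ξ * (W.map s δ * δ)) ≠ 0) {w : W.H Z}
    (h : ext (ext w δ) δ ∈ Alg W ((Z.prod Y).prod Y)) : w ∈ Alg W Z := by
  have h1 := Alg.push (snd Y Z) (Alg.mul (Alg.map (fst Y Z) hΞA)
    (Alg.map (Obj.lift (Obj.lift (snd Y Z) (fst Y Z ≫ s)) (fst Y Z)) h))
  have hδδ : W.map s δ * δ ∈ pty W Y (2 * e) := by
    have := pty_mul (pty_map s hδ) hδ
    rwa [← two_mul] at this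
  have h2 : W.map (fst Y Z) Ξ *
      W.map (Obj.lift (Obj.lift (snd Y Z) (fst Y Z ≫ s)) (fst Y Z)) (ext (ext w δ) δ) =
      W.map (fst Y Z) (Ξ * (W.map s δ * δ)) * W.map (snd Y Z) w := by
    rw [ext, ext, map_mul, ← W.map_comp, ← W.map_comp, Obj.lift_fst, Obj.lift_snd, map_mul,
      ← W.map_comp, ← W.map_comp, Obj.lift_fst, Obj.lift_snd, W.map_comp,
      mul_assoc (W.map (snd Y Z) w), ← map_mul, ← pty_even (pty_map (fst Y Z) hδδ), ← mul_assoc,
      ← map_mul]
  rw [h2, W.push_snd] at h1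
  have h3 := Submodule.smul_mem _ (W.tr Y (Ξ * (W.map s δ * δ)))⁻¹ h1
  rwa [smul_smul, inv_mul_cancel₀ ht, one_smul] at h3

/-- The square is algebraic if some positive power is. -/
lemma square_of_power_s {Ξ : W.H Y} {e : ℕ} (hΞA : Ξ ∈ Alg W Y) {δ : W.H Y}
    (hδ : δ ∈ pty W Y e) (s : Y ⟶ Y) (ht : W.tr Y (Ξ * (W.map s δ * δ)) ≠ 0) (m : ℕ)
    (h : extFam W m (fun _ => δ) ∈ Alg W (pow Y m)) : ext δ δ ∈ Alg W (Y.prod Y) := by
  induction m using Nat.strong_induction_on with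
  | _ m ih =>
    match m, ih, h with
    | 0, _, h => exact Alg.mul (Alg.map _ h) (Alg.map _ h)
    | 1, _, h => exact h
    | m + 2, ih, h => exact ih m (by omega) (contract_s hΞA hδ s ht h)

/-- The product of algebraic weights. -/
lemma extFam_alg {m : ℕ} {z : Fin (m + 1) → W.H X} (hz : ∀ j, z j ∈ Alg W X) :
    extFam W m z ∈ Alg W (pow X m) := by
  induction m with
  | zero => exact hz 0
  | succ m ih =>
    exact Alg.mul (Alg.map _ (ih fun j => hz j.castSucc)) (Alg.map _ (hz (Fin.last (m + 1))))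

/-- **The master criterion.** -/
theorem master {ρ : ℕ → W.H X} (hρ : ∀ c, ρ c ∈ pty W X 0) (hρA : ∀ c, ρ c ∈ Alg W X) {n : ℕ}
    {e : Fin (n + 1) → ℕ} {x y : Fin (n + 1) → W.H X} (hx : ∀ b, x b ∈ pty W X (e b))
    (hy : ∀ b, y b ∈ pty W X (e b))
    (hxy : ∀ a b, e a = e b → W.tr X (ρ (e a) * (x a * y b)) = if a = b then 1 else 0)
    (s s' : pow X n ⟶ pow X n) {r r' : W.K} (hr : r ≠ 0) (hr' : r' ≠ 0)
    (hs : W.map s (cdet W n e y) = r • cdet W n e x)
    (hs' : W.map s' (cdet W n e x) = r' • cdet W n e y) :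
    ((∀ c, gform e x y c ∈ Alg W (X.prod X)) ↔
      ext (cdet W n e y) (cdet W n e y) ∈ Alg W ((pow X n).prod (pow X n))) ∧
    ((∃ m, extFam W m (fun _ => cdet W n e y) ∈ Alg W (pow (pow X n) m)) ↔
      ext (cdet W n e y) (cdet W n e y) ∈ Alg W ((pow X n).prod (pow X n))) := by
  have hmap : ∀ (t : pow X n ⟶ pow X n) (a b : W.H (pow X n)),
      W.map (Obj.lift (fst (pow X n) (pow X n) ≫ t) (snd (pow X n) (pow X n))) (ext a b) =
        ext (W.map t a) b := by
    intro t a b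
    rw [ext, map_mul, ← W.map_comp, ← W.map_comp, Obj.lift_fst, Obj.lift_snd, W.map_comp, ext]
  refine ⟨⟨fun h => ?_, fun h => ?_⟩, ⟨?_, fun h => ⟨1, h⟩⟩⟩
  · have h1 : ext (cdet W n e x) (cdet W n e y) ∈ Alg W ((pow X n).prod (pow X n)) :=
      det_clC (algSys W) hx hy h
    have h2 := Alg.map (Obj.lift (fst (pow X n) (pow X n) ≫ s') (snd (pow X n) (pow X n))) h1
    rw [hmap, hs', ext_smul_left] at h2
    have h3 := Submodule.smul_mem _ r'⁻¹ h2
    rwa [smul_smul, inv_mul_cancel₀ hr', one_smul] at h3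
  · have h2 := Alg.map (Obj.lift (fst (pow X n) (pow X n) ≫ s) (snd (pow X n) (pow X n))) h
    rw [hmap, hs, ext_smul_left] at h2
    have h3 := Submodule.smul_mem _ r⁻¹ h2
    rw [smul_smul, inv_mul_cancel₀ hr, one_smul] at h3
    exact form_C hρ hρA hx hy hxy h3
  · rintro ⟨m, hm⟩
    refine square_of_power_s (Ξ := extFam W n fun j => ρ (e j)) (extFam_alg fun j => hρA _)
      (cdet_pty hy) s ?_ m hm
    rw [hs, smul_mul_assoc, mul_smul_comm, map_smul, smul_eq_mul]
    exact mul_ne_zero hr (tr_cdet hρ hx hy hxy)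

/-! ### Degrees -/

lemma extFam_gr {n : ℕ} {f : Fin (n + 1) → ℕ} {v : Fin (n + 1) → W.H X}
    (hv : ∀ j, v j ∈ W.gr X (f j)) : extFam W n v ∈ W.gr (pow X n) (∑ j, f j) := by
  induction n with
  | zero =>
    rw [Fin.sum_univ_succ, Fin.sum_univ_zero, add_zero]
    exact hv 0
  | succ n ih =>
    rw [Fin.sum_univ_castSucc]
    exact W.mul_mem (W.map_mem (fst (pow X n) X) (ih fun j => hv j.castSucc))
      (W.map_mem (snd (pow X n) X) (hv (Fin.last (n + 1))))

lemma cdet_gr {n : ℕ} {e : Fin (n + 1) → ℕ} {v : Fin (n + 1) → W.H X}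
    (hv : ∀ j, v j ∈ W.gr X (e j)) : cdet W n e v ∈ W.gr (pow X n) (∑ j, e j) := by
  refine Submodule.sum_mem _ fun σ hσ => Submodule.smul_mem _ _ ?_
  refine extFam_gr fun j => ?_
  rw [← mem_stab.1 hσ j]
  exact hv _

/-- The `(m + 1)`-st power of the class `cdet W n e v` is a combination of classes of cycles, of the
codimension given by its degree. -/
def ClassPower (W : WeilCohomology.{u, v} ops) (X : 𝒱.Obj) (n m : ℕ) (e : Fin (n + 1) → ℕ)
    (v : Fin (n + 1) → W.H X) : Prop :=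
  ∃ p : ℕ, (∑ j, e j) * (m + 1) = 2 * p ∧
    extFam W m (fun _ => cdet W n e v) ∈ spanCycles W (pow (pow X n) m) p

lemma classPower_one_iff {n : ℕ} {e : Fin (n + 1) → ℕ} {v : Fin (n + 1) → W.H X}
    (hv : ∀ j, v j ∈ W.gr X (e j)) : ClassPower W X n 1 e v ↔
      ext (cdet W n e v) (cdet W n e v) ∈ Alg W ((pow X n).prod (pow X n)) := by
  constructor
  · rintro ⟨p, -, h⟩
    exact span_le_alg h
  · intro h
    refine ⟨∑ j, e j, by ring, alg_span (X := pow (pow X n) 1) h ?_⟩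
    have h1 := extFam_mem (W := W) (X := pow X n) 1 (v := fun _ => cdet W n e v)
      (fun _ => cdet_gr hv)
    rwa [show (∑ j, e j) * (1 + 1) = 2 * ∑ j, e j by ring] at h1

lemma exists_classPower_iff {n : ℕ} {e : Fin (n + 1) → ℕ} {v : Fin (n + 1) → W.H X}
    (hv : ∀ j, v j ∈ W.gr X (e j))
    (hm : (∃ m, extFam W m (fun _ => cdet W n e v) ∈ Alg W (pow (pow X n) m)) →
      ext (cdet W n e v) (cdet W n e v) ∈ Alg W ((pow X n).prod (pow X n))) :
    (∃ m, ClassPower W X n m e v) ↔ ClassPower W X n 1 e v := by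
  constructor
  · rintro ⟨m, p, -, h⟩
    rw [classPower_one_iff hv]
    exact hm ⟨m, span_le_alg h⟩
  · exact fun h => ⟨1, h⟩

/-! ### Operators of the forms -/

lemma corr_sum_ext {B : Type*} [Fintype B] {i : ℕ} {x y : B → W.H X}
    (hx : ∀ b, x b ∈ pty W X i) (hy : ∀ b, y b ∈ pty W X i) (c : W.H X) :
    W.corr (∑ b, ext (x b) (y b)) c = (-1 : W.K) ^ i • ∑ b, W.tr X (x b * c) • y b := by
  refine gr_induction (W.isInternal X) (p := fun c => W.corr (∑ b, ext (x b) (y b)) c =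
    (-1 : W.K) ^ i • ∑ b, W.tr X (x b * c) • y b) ?_ ?_ c
  · intro j c hc
    rw [corr_apply, Finset.sum_mul, map_sum, Finset.smul_sum]
    refine Finset.sum_congr rfl fun b _ => ?_
    have h1 : W.push (snd X X) (ext (x b) (y b) * W.map (fst X X) c) =
        ((-1) ^ (i * j) * W.tr X (x b * c)) • y b := by
      rw [ext, mul_assoc, pty_comm (pty_map (snd X X) (hy b))
        (gr_le_pty rfl (W.map_mem (fst X X) hc)), mul_smul_comm, map_smul, ← mul_assoc,
        ← map_mul, W.push_snd, smul_smul]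
    rw [h1, smul_smul]
    congr 1
    by_cases hij : i % 2 = j % 2
    · rw [neg_pow_congr (a := i * j) (b := i) (by rw [Nat.mul_mod, ← hij, ← Nat.mul_mod, sq_mod])]
    · rw [tr_pty hij (hx b) (gr_le_pty rfl hc), mul_zero, mul_zero]
  · intro c d hc hd
    rw [map_add, hc, hd, ← smul_add, ← Finset.sum_add_distrib]
    congr 1
    refine Finset.sum_congr rfl fun b _ => ?_
    rw [mul_add, map_add, add_smul]

lemma corr_gform {n : ℕ} {e : Fin (n + 1) → ℕ} {x y : Fin (n + 1) → W.H X}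
    (hx : ∀ b, x b ∈ pty W X (e b)) (hy : ∀ b, y b ∈ pty W X (e b)) (i : ℕ) (c : W.H X) :
    W.corr (gform e x y i) c =
      (-1 : W.K) ^ i • ∑ b : {b // e b = i}, W.tr X (x b * c) • y b :=
  corr_sum_ext (B := {b // e b = i}) (x := fun b => x b) (y := fun b => y b)
    (fun b => (congrArg (fun j => x b ∈ pty W X j) b.2).mp (hx b))
    (fun b => (congrArg (fun j => y b ∈ pty W X j) b.2).mp (hy b)) c

/-- Expansion in a dual family. -/
lemma expand {n : ℕ} {v w : Fin (n + 1) → W.H X}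
    (hwv : ∀ a b, W.tr X (w a * v b) = if a = b then 1 else 0) {a : W.H X}
    (ha : a ∈ Submodule.span W.K (Set.range v)) : ∑ b, W.tr X (w b * a) • v b = a := by
  obtain ⟨g, rfl⟩ := (Submodule.mem_span_range_iff_exists_fun W.K).1 ha
  refine Finset.sum_congr rfl fun b _ => ?_
  congr 1
  rw [Finset.mul_sum, map_sum, Finset.sum_eq_single b]
  · rw [mul_smul_comm, map_smul, hwv, if_pos rfl, smul_eq_mul, mul_one]
  · intro c _ hc
    rw [mul_smul_comm, map_smul, hwv, if_neg (Ne.symm hc), smul_zero]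
  · exact fun h => absurd (Finset.mem_univ b) h

/-- Expansion in the elements of one degree. -/
lemma expand_deg {n : ℕ} {e : Fin (n + 1) → ℕ} {v w : Fin (n + 1) → W.H X}
    (hv : ∀ j, v j ∈ W.gr X (e j)) (hi : LinearIndependent W.K v)
    (hw : ∀ j, w j ∈ W.gr X (2 * X.dim - e j))
    (hwv : ∀ a b, W.tr X (w a * v b) = if a = b then 1 else 0) {i : ℕ} {a : W.H X}
    (ha : a ∈ W.gr X i) (ha' : a ∈ Submodule.span W.K (Set.range v)) :
    ∑ b : {b // e b = i}, W.tr X (w b * a) • v b = a := by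
  rw [← expand hwv ha']
  conv_rhs => rw [← Finset.sum_filter_add_sum_filter_not Finset.univ (fun b => e b = i)]
  have h1 : ∑ b ∈ Finset.univ.filter (fun b => ¬ e b = i), W.tr X (w b * a) • v b = 0 := by
    refine Finset.sum_eq_zero fun b hb => ?_
    have hb' := (Finset.mem_filter.1 hb).2
    have hle := deg_le (hv b) (hi.ne_zero b)
    rw [W.tr_eq_zero (W.mul_mem (hw b) ha) (by omega), zero_smul]
  have h2 : ∑ b, W.tr X (w b * a) • v b = a := expand hwv ha'
  have h3 : ∀ b : {b // e b = i}, W.tr X (w b * ∑ b, W.tr X (w b * a) • v b) • v b =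
      W.tr X (w b * a) • v b := fun b => by rw [h2]
  rw [Finset.sum_congr rfl fun b _ => h3 b, h1, add_zero]
  exact (Finset.sum_subtype _ (fun b => by simp) (fun b => W.tr X (w b * a) • v b)).symm

end Pool.Agent.Helper70Ct
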