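import Pool.Agent.Helper70_ct.Ct4

/-!
# The Kunneth conjecture and one class
-/

open CategoryTheory AlgebraicGeometry

universe u v

namespace Pool.Agent.Helper70Ct

open Pool.Agent.H914 Pool.Agent.H914.VarClass Pool.Agent.H914.VarClass.Obj
  Pool.Agent.H914.WeilCohomology Pool.Agent.Helper70Rk Pool.Agent.Helper70Ls Pool.Agent.Helper70Sg
  Pool.Agent.TH133.PW

variable {k : Type u} [Field k] {𝒱 : VarClass k} {ops : CycleOps 𝒱}
  {W : WeilCohomology.{u, v} ops} {X Y Z : 𝒱.Obj}

lemma kunneth_iff_aop {i : ℕ} :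
    KunnethAlgebraic W X i ↔ proj (W.isInternal X) i ∈ AOp W X X := by
  have key : ∀ F : Module.End W.K (W.H X), IsProjector (W.gr X) i F →
      F = proj (W.isInternal X) i := fun F hF =>
    gr_ext (W.isInternal X) (fun j a ha => by rw [hF j a ha, isProjector_proj W X i j a ha])
  constructor
  · rintro ⟨γ, hγ, h⟩
    rw [← key _ h]
    exact mem_aop.2 ⟨γ, span_le_alg hγ, rfl⟩
  · intro h
    obtain ⟨F₀, hF₀, h1⟩ := kop_of_aop h
    have h2 : F₀ = proj (W.isInternal X) i := by
      apply key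
      intro j a ha
      rw [← h1 j a ha]
      split_ifs with hj
      · subst hj
        rw [proj_same _ ha, proj_same _ ha]
      · rw [proj_ne _ ha hj, map_zero]
    rw [h2] at hF₀
    obtain ⟨γ, hγ, h3⟩ := mem_KOp_iff.1 hF₀
    rw [add_zero] at hγ
    exact ⟨γ, hγ, by rw [h3]; exact isProjector_proj W X i⟩

/-- The form of the degree `i` and the Kunneth projector. -/
lemma gform_iff_kunneth {n : ℕ} {e : Fin (n + 1) → ℕ} {v w : Fin (n + 1) → W.H X}
    (h : IsHomBasis W X ⊤ n e v) (hw : ∀ j, w j ∈ W.gr X (2 * X.dim - e j))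
    (hwv : ∀ a b, W.tr X (w a * v b) = if a = b then 1 else 0) (i : ℕ) :
    gform e w v i ∈ Alg W (X.prod X) ↔ KunnethAlgebraic W X i := by
  have hwp : ∀ b, w b ∈ pty W X (e b) := fun b =>
    gr_le_pty (par_dual (deg_le (h.1 b) (h.2.1.ne_zero b))) (hw b)
  have h1 : W.corr (gform e w v i) = (-1 : W.K) ^ i • proj (W.isInternal X) i := by
    apply gr_ext (W.isInternal X)
    intro j a ha
    rw [corr_gform hwp h.pty, LinearMap.smul_apply]
    congr 1
    by_cases hj : j = i
    · subst hj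
      rw [proj_same _ ha]
      exact expand_deg h.1 h.2.1 hw hwv ha (by rw [h.2.2]; trivial)
    · rw [proj_ne _ ha hj]
      refine Finset.sum_eq_zero fun b _ => ?_
      have hle := deg_le (h.1 b.1) (h.2.1.ne_zero b.1)
      have hb := b.2
      rw [W.tr_eq_zero (W.mul_mem (hw b) ha) (by omega), zero_smul]
  rw [kunneth_iff_aop]
  constructor
  · intro h2
    have h3 : (-1 : W.K) ^ i • proj (W.isInternal X) i ∈ AOp W X X := by
      rw [← h1]
      exact mem_aop.2 ⟨_, h2, rfl⟩
    have h4 := Submodule.smul_mem _ ((-1 : W.K) ^ i) h3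
    rwa [smul_smul, ← pow_add, ← two_mul, pow_mul, neg_one_sq, one_pow, one_smul] at h4
  · intro h2
    obtain ⟨c, hc, h3⟩ := mem_aop.1 h2
    have h4 : gform e w v i = (-1 : W.K) ^ i • c := by
      apply corr_inj_iff.1
      rw [h1, W.corr_smul, h3]
    rw [h4]
    exact Submodule.smul_mem _ _ hc

/-- A dual family of a homogeneous basis is a homogeneous basis. -/
lemma dual_homBasis {n : ℕ} {e : Fin (n + 1) → ℕ} {v w : Fin (n + 1) → W.H X}
    (h : IsHomBasis W X ⊤ n e v) (hw : ∀ j, w j ∈ W.gr X (2 * X.dim - e j))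
    (hwv : ∀ a b, W.tr X (w a * v b) = if a = b then 1 else 0) :
    IsHomBasis W X ⊤ n (fun j => 2 * X.dim - e j) w := by
  have hi : LinearIndependent W.K w := dual_indep' (x := w) (y := v) hwv
  refine ⟨hw, hi, ?_⟩
  apply Submodule.eq_top_of_finrank_eq
  rw [finrank_span_eq_card hi, ← finrank_top W.K (W.H X), ← h.2.2,
    finrank_span_eq_card h.2.1]

lemma stab_dual {n : ℕ} {e : Fin (n + 1) → ℕ} {d : ℕ} (he : ∀ j, e j ≤ d) :
    stab (fun j => d - e j) = stab e := by
  ext σ
  rw [mem_stab, mem_stab]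
  constructor
  · intro h j
    have h1 := h j
    have h2 := he j
    have h3 := he (σ j)
    omega
  · intro h j
    rw [h j]

/-- **The Kunneth conjecture is a statement about one class.** -/
theorem kunneth_one_class {n : ℕ} {e : Fin (n + 1) → ℕ} {v : Fin (n + 1) → W.H X}
    (h : IsHomBasis W X ⊤ n e v) :
    ((∀ i, KunnethAlgebraic W X i) ↔ ClassPower W X n 1 e v) ∧
    ((∃ m, ClassPower W X n m e v) ↔ ClassPower W X n 1 e v) := by
  obtain ⟨w, hw, hwv⟩ := exists_dual_hom h.1 h.2.1
  have hle : ∀ j, e j ≤ 2 * X.dim := fun j => deg_le (h.1 j) (h.2.1.ne_zero j)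
  have hwp : ∀ b, w b ∈ pty W X (e b) := fun b => gr_le_pty (par_dual (hle b)) (hw b)
  have h' := dual_homBasis h hw hwv
  have hst : cdet W n (fun j => 2 * X.dim - e j) w = cdet W n e w := by
    rw [cdet, cdet, stab_dual hle]
  obtain ⟨τ, r, hr, hs⟩ := cdet_any h h'
  obtain ⟨τ', r', hr', hs'⟩ := cdet_any h' h
  rw [hst] at hs hs'
  obtain ⟨h1, h2⟩ := master (W := W) (ρ := fun _ => 1) (fun _ => one_pty) (fun _ => Alg.one)
    hwp h.pty (fun a b _ => by rw [one_mul, hwv]) (permMor X n τ) (permMor X n τ') hr hr' hs hs'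
  have h3 : (∀ i, KunnethAlgebraic W X i) ↔ ClassPower W X n 1 e v := by
    rw [classPower_one_iff h.1, ← h1]
    exact forall_congr' fun i => (gform_iff_kunneth h hw hwv i).symm
  exact ⟨h3, exists_classPower_iff h.1 h2.1⟩

/-! ### One degree -/

/-- The class `δ_x ⊠ δ_y` for bases `x` of `H^(2d - i)` and `y` of `H^i`. -/
def PairMid (W : WeilCohomology.{u, v} ops) (X : 𝒱.Obj) (n : ℕ)
    (x y : Fin (n + 1) → W.H X) : Prop :=
  extFam W 1 ![detClass W n x, detClass W n y] ∈
    spanCycles W (pow (pow X n) 1) ((X.dim * (n + 1) : ℕ) : ℤ)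

/-- **The Kunneth projector in one degree.** -/
theorem kunneth_degree {i n : ℕ} (hi : i ≤ 2 * X.dim) {x y : Fin (n + 1) → W.H X}
    (hx : IsBasisOf W X (2 * X.dim - i) n x) (hy : IsBasisOf W X i n y) :
    KunnethAlgebraic W X i ↔ PairMid W X n x y := by
  have hygr : ∀ j, y j ∈ W.gr X i := fun j => by
    rw [← hy.2]; exact Submodule.subset_span ⟨j, rfl⟩
  have hxgr : ∀ j, x j ∈ W.gr X (2 * X.dim - i) := fun j => by
    rw [← hx.2]; exact Submodule.subset_span ⟨j, rfl⟩
  obtain ⟨w, hw, hwy⟩ := exists_dual_hom (e := fun _ : Fin (n + 1) => i) hygr hy.1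
  have hwi : LinearIndependent W.K w := dual_indep' (x := w) (y := y) hwy
  have hwb : IsBasisOf W X (2 * X.dim - i) n w := by
    refine ⟨hwi, ?_⟩
    apply Submodule.eq_of_le_of_finrank_eq
    · rw [Submodule.span_le]
      rintro _ ⟨b, rfl⟩
      exact hw b
    · rw [finrank_span_eq_card hwi, ← hx.2, finrank_span_eq_card hx.1]
  obtain ⟨x', hx'⟩ := exists_basis hx
  obtain ⟨w', hw'⟩ := exists_basis hwb
  obtain rfl : (fun j => (x' j : W.H X)) = x := funext hx'
  obtain rfl : (fun j => (w' j : W.H X)) = w := funext hw'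
  obtain ⟨r, hr0, hr⟩ := det_changeV (W := W) x' w'
  have hwp : ∀ b, (w' b : W.H X) ∈ pty W X i := fun b => gr_le_pty (par_dual hi) (hw b)
  have hyp : ∀ b, y b ∈ pty W X i := fun b => gr_le_pty rfl (hygr b)
  have h1 := pj_iff (W := W) hwp hyp hwy
  have h2 : pj (fun j => (w' j : W.H X)) y = proj (W.isInternal X) i := by
    apply gr_ext (W.isInternal X)
    intro j a ha
    rw [pj_apply]
    by_cases hj : j = i
    · subst hj
      rw [proj_same _ ha]
      exact expand hwy (by rw [hy.2]; exact ha)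
    · rw [proj_ne _ ha hj]
      refine Finset.sum_eq_zero fun b _ => ?_
      rw [W.tr_eq_zero (W.mul_mem (hw b) ha) (by omega), zero_smul]
  rw [kunneth_iff_aop, ← h2, h1]
  have hgr : ext (detClass W n fun j => (x' j : W.H X)) (detClass W n y) ∈
      W.gr ((pow X n).prod (pow X n)) (2 * (X.dim * (n + 1))) := by
    have h3 := W.mul_mem (W.map_mem (fst (pow X n) (pow X n)) (detClass_mem n hxgr))
      (W.map_mem (snd (pow X n) (pow X n)) (detClass_mem n hygr))
    have e : (2 * X.dim - i) * (n + 1) + i * (n + 1) = 2 * (X.dim * (n + 1)) := by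
      rw [← Nat.add_mul, Nat.sub_add_cancel hi]
      ring
    rwa [e] at h3
  constructor
  · intro h3
    rw [hr, ext_smul_left] at h3
    have h4 := Submodule.smul_mem _ r⁻¹ h3
    rw [smul_smul, inv_mul_cancel₀ hr0, one_smul] at h4
    exact alg_span h4 hgr
  · intro h3
    have h4 : ext (detClass W n fun j => (x' j : W.H X)) (detClass W n y) ∈
        Alg W ((pow X n).prod (pow X n)) := span_le_alg (X := pow (pow X n) 1) h3
    rw [hr, ext_smul_left]
    exact Submodule.smul_mem _ _ h4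

/-- **The middle degree.** -/
theorem kunneth_middle {n : ℕ} {y : Fin (n + 1) → W.H X} (hy : IsBasisOf W X X.dim n y) :
    (KunnethAlgebraic W X X.dim ↔ PowerMid W X n 1 y) ∧
    ((∃ m, PowerMid W X n m y) ↔ PowerMid W X n 1 y) ∧
    (Odd X.dim → (KunnethAlgebraic W X X.dim ↔ PowerMid W X n 0 y)) := by
  have hygr : ∀ j, y j ∈ W.gr X X.dim := fun j => by
    rw [← hy.2]; exact Submodule.subset_span ⟨j, rfl⟩
  have hlp : ∀ m, linePower W n m y ∈ W.gr (pow (pow X n) m) (X.dim * (n + 1) * (m + 1)) :=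
    fun m => extFam_mem m fun _ => detClass_mem n hygr
  have e2 : 2 * X.dim - X.dim = X.dim := by omega
  have h1 : KunnethAlgebraic W X X.dim ↔ PairMid W X n y y :=
    kunneth_degree (by omega) (by rw [e2]; exact hy) hy
  have h2 : PairMid W X n y y ↔ PowerMid W X n 1 y := by
    constructor
    · intro h
      exact ⟨X.dim * (n + 1), by ring, h⟩
    · rintro ⟨p, hp, h⟩
      obtain rfl : p = X.dim * (n + 1) := by
        have : X.dim * (n + 1) * (1 + 1) = 2 * (X.dim * (n + 1)) := by ring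
        omega
      exact h
  set V := W.gr X X.dim with hVdef
  have hV : V ≤ pty W X X.dim := gr_le_pty rfl
  obtain ⟨w, hw, hwy⟩ := exists_dual_hom (e := fun _ : Fin (n + 1) => X.dim) hygr hy.1
  rw [e2] at hw
  have hwi : LinearIndependent W.K w := dual_indep' (x := w) (y := y) hwy
  have hsp : SameSpan W X n w y := by
    rw [SameSpan, hy.2]
    apply Submodule.eq_of_le_of_finrank_eq
    · rw [Submodule.span_le]
      rintro _ ⟨b, rfl⟩
      exact hw b
    · rw [finrank_span_eq_card hwi, ← hy.2, finrank_span_eq_card hy.1]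
  obtain ⟨h3, h4, h5⟩ := pair_iff_square (i := X.dim) (x := w) (y := y) (fun b => hV (hw b))
    (fun b => hV (hygr b)) hwy hsp
  have h6 : ∀ m, PowerMid W X n m y → PowerAlgebraic W X n m y := by
    rintro m ⟨p, -, h⟩
    exact span_le_alg h
  have h7 : PowerAlgebraic W X n 1 y → PowerMid W X n 1 y := by
    intro h
    refine ⟨X.dim * (n + 1), by ring, alg_span h ?_⟩
    have := hlp 1
    rwa [show X.dim * (n + 1) * (1 + 1) = 2 * (X.dim * (n + 1)) by ring] at this
  have h8 : ProjAlgebraic W X n w y ↔ PowerMid W X n 1 y := by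
    rw [proj_iff_pair (i := X.dim) (fun b => hV (hw b)) (fun b => hV (hygr b)) hwy, h3]
    exact ⟨h7, h6 1⟩
  refine ⟨h1.trans h2, ⟨?_, fun h => ⟨1, h⟩⟩, fun hodd => ?_⟩
  · rintro ⟨m, hm⟩
    exact h7 (h4.1 ⟨m, h6 m hm⟩)
  · rw [h1.trans h2, ← h8, h5 hodd]
    constructor
    · intro h
      obtain ⟨w', hw'⟩ := exists_basisV (V := V) hwi (hsp.trans hy.2)
      obtain ⟨y', hy'⟩ := exists_basisV (V := V) hy.1 hy.2
      obtain ⟨⟨q, hq⟩, -⟩ := line_of_form (V := V) hV (i := X.dim) (by
        intro a ha hh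
        apply W.nondeg
        intro b
        refine gr_induction (W.isInternal X) (p := fun b => W.tr X (a * b) = 0) ?_ ?_ b
        · intro j b hb
          by_cases hj : j = X.dim
          · subst hj
            exact hh b hb
          · exact W.tr_eq_zero (W.mul_mem ha hb) (by omega)
        · intro b c hb hc
          rw [mul_add, map_add, hb, hc, add_zero]) (algSys W) hodd w' y' (fun a b => by
          rw [hw', hy']
          exact hwy a b) (by
          simp only [hw', hy']
          exact (form_iff_aop (fun b => hV (hw b)) (fun b => hV (hygr b))).2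
            (projAlgebraic_iff.1 ((h5 hodd).2 h)))
      have hp : X.dim * (n + 1) * (0 + 1) = 2 * (X.dim * q) := by rw [hq]; ring
      refine ⟨_, hp, alg_span h ?_⟩
      rw [← hp]
      exact hlp 0
    · exact h6 0

end Pool.Agent.Helper70Ct
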