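import Pool.Agent.Helper70_ct.Ct5

/-!
# The Lefschetz standard conjecture and one class
-/

open CategoryTheory AlgebraicGeometry

universe u v

namespace Pool.Agent.Helper70Ct

open Pool.Agent.H914 Pool.Agent.H914.VarClass Pool.Agent.H914.VarClass.Obj
  Pool.Agent.H914.WeilCohomology Pool.Agent.Helper70Rk Pool.Agent.Helper70Ls Pool.Agent.Helper70Sg

variable {k : Type u} [Field k] {𝒱 : VarClass k} {ops : CycleOps 𝒱}
  {W : WeilCohomology.{u, v} ops} {X Y Z : 𝒱.Obj}

lemma gr_le_low {i : ℕ} (h : i ≤ X.dim) : W.gr X i ≤ lowPart W X :=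
  le_iSup (fun i : {i : ℕ // i ≤ X.dim} => W.gr X i) ⟨i, h⟩

lemma proj_low {c : ℕ} (hc : X.dim < c) {a : W.H X} (ha : a ∈ lowPart W X) :
    proj (W.isInternal X) c a = 0 := by
  refine Submodule.iSup_induction (fun i : {i : ℕ // i ≤ X.dim} => W.gr X i)
    (motive := fun a => proj (W.isInternal X) c a = 0) ha ?_ (map_zero _) ?_
  · intro i a ha
    exact proj_ne _ ha (by have := i.2; omega)
  · intro a b h1 h2
    rw [map_add, h1, h2, add_zero]

lemma low_deg {n : ℕ} {e : Fin (n + 1) → ℕ} {v : Fin (n + 1) → W.H X}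
    (h : IsHomBasis W X (lowPart W X) n e v) (j : Fin (n + 1)) : e j ≤ X.dim := by
  by_contra hcon
  have h1 : v j ∈ lowPart W X := by
    rw [← h.2.2]
    exact Submodule.subset_span ⟨j, rfl⟩
  have h2 := proj_low (by omega) h1 (c := e j)
  rw [proj_same _ (h.1 j)] at h2
  exact h.2.1.ne_zero j h2

/-- The operator acting as `ξ ^ (d - i)` on `H^i`, `i ≤ d`. -/
noncomputable def bigL (W : WeilCohomology.{u, v} ops) (X : 𝒱.Obj) (D : X.Cycles) :
    Module.End W.K (W.H X) :=
  ∑ c ∈ Finset.range (X.dim + 1),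
    LinearMap.mulLeft W.K (W.cl X D ^ (X.dim - c)) * proj (W.isInternal X) c

lemma bigL_apply (D : X.Cycles) {i : ℕ} (hi : i ≤ X.dim) {a : W.H X} (ha : a ∈ W.gr X i) :
    bigL W X D a = W.cl X D ^ (X.dim - i) * a := by
  rw [bigL, LinearMap.sum_apply, Finset.sum_eq_single i]
  · rw [Module.End.mul_apply, proj_same _ ha, LinearMap.mulLeft_apply]
  · intro c _ hc
    rw [Module.End.mul_apply, proj_ne _ ha (Ne.symm hc), map_zero]
  · intro h
    exact absurd (Finset.mem_range.2 (by omega)) h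

section

variable {D : X.Cycles} (hD : X.IsCyc 1 D) (hHL : HardLefschetz W X D) {n : ℕ}
  {e : Fin (n + 1) → ℕ} {v : Fin (n + 1) → W.H X} (h : IsHomBasis W X (lowPart W X) n e v)

include hHL h

/-- The dual family for the Lefschetz forms. -/
lemma exists_low_dual : ∃ w x : Fin (n + 1) → W.H X,
    (∀ j, w j ∈ W.gr X (2 * X.dim - e j)) ∧
    (∀ a b, W.tr X (w a * v b) = if a = b then 1 else 0) ∧
    (∀ j, W.cl X D ^ (X.dim - e j) * x j = w j) ∧ IsHomBasis W X (lowPart W X) n e x := by
  obtain ⟨w, hw, hwv⟩ := exists_dual_hom h.1 h.2.1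
  choose x hx hxw using fun j => hl_surj hHL (low_deg h j) (hw j)
  have hi : LinearIndependent W.K x := by
    have h1 : LinearIndependent W.K ((bigL W X D) ∘ x) := by
      have h2 : (bigL W X D) ∘ x = w := by
        funext j
        rw [Function.comp_apply, bigL_apply D (low_deg h j) (hx j), hxw]
      rw [h2]
      exact dual_indep' (x := w) (y := v) hwv
    exact LinearIndependent.of_comp _ h1
  refine ⟨w, x, hw, hwv, hxw, hx, hi, ?_⟩
  apply Submodule.eq_of_le_of_finrank_eq
  · rw [Submodule.span_le]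
    rintro _ ⟨b, rfl⟩
    exact gr_le_low (low_deg h b) (hx b)
  · rw [finrank_span_eq_card hi, ← h.2.2, finrank_span_eq_card h.2.1]

include hD

lemma gform_iff_inv {w x : Fin (n + 1) → W.H X} (hw : ∀ j, w j ∈ W.gr X (2 * X.dim - e j))
    (hwv : ∀ a b, W.tr X (w a * v b) = if a = b then 1 else 0)
    (hxw : ∀ j, W.cl X D ^ (X.dim - e j) * x j = w j)
    (hx : IsHomBasis W X (lowPart W X) n e x) {i : ℕ} (hi : i ≤ X.dim) :
    gform e x v i ∈ Alg W (X.prod X) ↔ InvAlg W X D i := by
  have h1 : ∀ a ∈ W.gr X i, W.corr (gform e x v i) (W.cl X D ^ (X.dim - i) * a) =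
      (-1 : W.K) ^ i • a := by
    intro a ha
    rw [corr_gform hx.pty h.pty]
    congr 1
    have h2 : ∀ b : {b // e b = i}, W.tr X (x b * (W.cl X D ^ (X.dim - i) * a)) =
        W.tr X (w b * a) := by
      intro b
      have h3 := hxw b
      rw [b.2] at h3
      rw [tr_pow_comm hD, ← mul_assoc, h3]
    rw [Finset.sum_congr rfl fun b _ => by rw [h2 b]]
    exact expand_deg h.1 h.2.1 hw hwv ha (by rw [h.2.2]; exact gr_le_low hi ha)
  have h2 : ∀ j, j ≠ 2 * X.dim - i → ∀ a ∈ W.gr X j, W.corr (gform e x v i) a = 0 := by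
    intro j hj a ha
    rw [corr_gform hx.pty h.pty]
    have h3 : ∑ b : {b // e b = i}, W.tr X (x b * a) • v b = 0 := by
      refine Finset.sum_eq_zero fun b _ => ?_
      have hb := b.2
      rw [W.tr_eq_zero (W.mul_mem (hx.1 b.1) ha) (by omega), zero_smul]
    rw [h3, smul_zero]
  have hgr : gform e x v i ∈ W.gr (X.prod X) (2 * i) := by
    refine Submodule.sum_mem _ fun b _ => ?_
    have h3 := W.mul_mem (W.map_mem (fst X X) (hx.1 b.1)) (W.map_mem (snd X X) (h.1 b.1))
    rwa [b.2, ← two_mul] at h3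
  constructor
  · intro h3
    refine ⟨(-1 : W.K) ^ i • gform e x v i, Submodule.smul_mem _ _ (alg_span h3 hgr),
      fun a ha => ?_, fun j hj a ha => ?_⟩
    · rw [W.corr_smul, LinearMap.smul_apply, h1 a ha, smul_smul, ← pow_add, ← two_mul, pow_mul,
        neg_one_sq, one_pow, one_smul]
    · rw [W.corr_smul, LinearMap.smul_apply, h2 j hj a ha, smul_zero]
  · rintro ⟨γ, hγ, h3, h4⟩
    have h5 : gform e x v i = (-1 : W.K) ^ i • γ := by
      apply corr_inj_iff.1
      apply gr_ext (W.isInternal X)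
      intro j c hc
      rw [W.corr_smul, LinearMap.smul_apply]
      by_cases hj : j = 2 * X.dim - i
      · subst hj
        obtain ⟨b, hb, rfl⟩ := hl_surj hHL hi hc
        rw [h1 b hb, h3 b hb]
      · rw [h2 j hj c hc, h4 j hj c hc, smul_zero]
    rw [h5]
    exact Submodule.smul_mem _ _ (span_le_alg hγ)

/-- **The Lefschetz standard conjecture is a statement about one class.** -/
theorem lefschetz_one_class : (LefschetzB W X D ↔ ClassPower W X n 1 e v) ∧
    ((∃ m, ClassPower W X n m e v) ↔ ClassPower W X n 1 e v) := by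
  obtain ⟨w, x, hw, hwv, hxw, hx⟩ := exists_low_dual hHL h
  obtain ⟨r, hr, hs⟩ := cdet_change (W := W) hx h
  obtain ⟨r', hr', hs'⟩ := cdet_change (W := W) h hx
  obtain ⟨h1, h2⟩ := master (W := W) (ρ := fun c => W.cl X D ^ (X.dim - c))
    (fun c => gr_le_pty (by omega) (pow_gr hD (X.dim - c))) (fun c => pow_alg hD (X.dim - c))
    hx.pty h.pty (fun a b _ => by rw [← mul_assoc, hxw, hwv]) (𝟙 _) (𝟙 _) hr hr'
    (by rw [W.map_id]; exact hs) (by rw [W.map_id]; exact hs')
  have h3 : LefschetzB W X D ↔ ClassPower W X n 1 e v := by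
    rw [classPower_one_iff h.1, ← h1]
    constructor
    · intro hB c
      by_cases hc : c ≤ X.dim
      · exact (gform_iff_inv hD hHL h hw hwv hxw hx hc).2 (inverse_of_lefschetzB hD hHL hB c hc)
      · have h4 : gform e x v c = 0 :=
          Finset.sum_eq_zero fun b _ => absurd (b.2 ▸ low_deg h b.1) hc
        rw [h4]
        exact Submodule.zero_mem _
    · intro hall
      exact lefschetzB_of_inverse hD hHL fun i hi =>
        (gform_iff_inv hD hHL h hw hwv hxw hx hi).1 (hall i)
  exact ⟨h3, exists_classPower_iff h.1 h2.1⟩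

end

end Pool.Agent.Helper70Ct
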