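import Pool.Agent.Helper70_ct.Ct5

/-!
# Powers of the product of two dual lines
-/

open CategoryTheory AlgebraicGeometry

universe u v

namespace Pool.Agent.Helper70Ct

open Pool.Agent.H914 Pool.Agent.H914.VarClass Pool.Agent.H914.VarClass.Obj
  Pool.Agent.H914.WeilCohomology Pool.Agent.Helper70Rk Pool.Agent.Helper70Ls Pool.Agent.Helper70Sg

variable {k : Type u} [Field k] {𝒱 : VarClass k} {ops : CycleOps 𝒱}
  {W : WeilCohomology.{u, v} ops} {X Y Z : 𝒱.Obj}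

/-- The exchange of the two factors. -/
noncomputable def sw (Y : 𝒱.Obj) : Y.prod Y ⟶ Y.prod Y := Obj.lift (snd Y Y) (fst Y Y)

lemma sw_ext {i j : ℕ} {a b : W.H Y} (ha : a ∈ pty W Y i) (hb : b ∈ pty W Y j) :
    W.map (sw Y) (ext a b) = (-1 : W.K) ^ (i * j) • ext b a := by
  rw [ext, map_mul, ← W.map_comp, ← W.map_comp, sw, Obj.lift_fst, Obj.lift_snd,
    pty_comm (pty_map _ ha) (pty_map _ hb), ext]

lemma neg_pow_ne {K : Type*} [Field K] (n : ℕ) : (-1 : K) ^ n ≠ 0 :=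
  pow_ne_zero _ (neg_ne_zero.2 one_ne_zero)

/-- The product of two dual classes is algebraic if some positive power of it is. -/
lemma pair_of_power {i j : ℕ} {a b : W.H Y} (ha : a ∈ pty W Y i) (hb : b ∈ pty W Y j)
    (ht : W.tr Y (a * b) ≠ 0) (m : ℕ)
    (h : extFam W m (fun _ => ext a b) ∈ Alg W (pow (Y.prod Y) m)) :
    ext a b ∈ Alg W (Y.prod Y) := by
  have hε : ext a b ∈ pty W (Y.prod Y) (i + j) := pty_mul (pty_map _ ha) (pty_map _ hb)
  have ht' : W.tr Y (b * a) ≠ 0 := by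
    rw [pty_comm hb ha, map_smul, smul_eq_mul]
    exact mul_ne_zero (neg_pow_ne _) ht
  have htr : W.tr (Y.prod Y) (1 * (W.map (sw Y) (ext a b) * ext a b)) ≠ 0 := by
    rw [one_mul, sw_ext ha hb, smul_mul_assoc, map_smul, smul_eq_mul, ext_mulP _ _ ha ha,
      map_smul, smul_eq_mul, tr_ext_eq]
    exact mul_ne_zero (neg_pow_ne _) (mul_ne_zero (neg_pow_ne _) (mul_ne_zero ht' ht))
  have h2 : ext (ext a b) (ext a b) ∈ Alg W ((Y.prod Y).prod (Y.prod Y)) :=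
    square_of_power_s Alg.one hε (sw Y) htr m h
  have h3 := Alg.map (Obj.lift (fst (Y.prod Y) (Y.prod Y))
    (snd (Y.prod Y) (Y.prod Y) ≫ sw Y)) h2
  have h4 : W.map (Obj.lift (fst (Y.prod Y) (Y.prod Y)) (snd (Y.prod Y) (Y.prod Y) ≫ sw Y))
      (ext (ext a b) (ext a b)) = (-1 : W.K) ^ (i * j) • ext (ext a b) (ext b a) := by
    rw [← ext_smul_right, ← sw_ext ha hb]
    nth_rewrite 1 [ext]
    rw [map_mul, ← W.map_comp, ← W.map_comp, Obj.lift_fst, Obj.lift_snd, W.map_comp]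
    nth_rewrite 3 [ext]
    rfl
  rw [h4] at h3
  have h5 := ctr_alg (Z := Y) (X := Y) Alg.one h3
  rw [map_smul, ctr_extP _ _ _ hb hb, one_mul, smul_smul] at h5
  have h6 := Alg.map (sw Y) h5
  rw [map_smul, sw_ext hb ha, smul_smul] at h6
  set c : W.K := (-1) ^ (i * j) * ((-1) ^ (j * j) * W.tr Y (a * b)) * (-1) ^ (j * i) with hc
  have hc0 : c ≠ 0 :=
    mul_ne_zero (mul_ne_zero (neg_pow_ne _) (mul_ne_zero (neg_pow_ne _) ht)) (neg_pow_ne _)
  have h7 := Submodule.smul_mem _ c⁻¹ h6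
  rwa [smul_smul, inv_mul_cancel₀ hc0, one_smul] at h7

end Pool.Agent.Helper70Ct
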