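import Pool.Agent.Helper70_ct.Ct6
import Pool.Agent.Helper70_ct.Ct7

/-!
# The final forms
-/

open CategoryTheory AlgebraicGeometry

universe u v

namespace Pool.Agent.Helper70Ct

open Pool.Agent.H914 Pool.Agent.H914.VarClass Pool.Agent.H914.VarClass.Obj
  Pool.Agent.H914.WeilCohomology Pool.Agent.Helper70Rk Pool.Agent.Helper70Ls Pool.Agent.Helper70Sg

variable {k : Type u} [Field k] {𝒱 : VarClass k} {ops : CycleOps 𝒱}
  {W : WeilCohomology.{u, v} ops} {X Y Z : 𝒱.Obj}

/-- There are homogeneous bases. -/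
lemma exists_homBasis (h : ∃ a : W.H X, a ≠ 0) : ∃ n e v, IsHomBasis W X ⊤ n e v := by
  classical
  obtain ⟨a, ha⟩ := h
  have : Nontrivial (W.H X) := ⟨a, 0, ha⟩
  set B := (W.isInternal X).collectedBasis (fun i => Module.finBasis W.K (W.gr X i)) with hB
  have : Finite (Σ i, Fin (Module.finrank W.K (W.gr X i))) := Module.Finite.finite_basis B
  have := Fintype.ofFinite (Σ i, Fin (Module.finrank W.K (W.gr X i)))
  have hc : Fintype.card (Σ i, Fin (Module.finrank W.K (W.gr X i))) ≠ 0 := by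
    rw [← Module.finrank_eq_card_basis B]
    exact (Module.finrank_pos (R := W.K) (M := W.H X)).ne'
  obtain ⟨n, hn⟩ := Nat.exists_eq_succ_of_ne_zero hc
  set f := (Fintype.equivFinOfCardEq hn).symm with hf
  refine ⟨n, fun j => (f j).1, fun j => B (f j), fun j => ?_, ?_, ?_⟩
  · exact (W.isInternal X).collectedBasis_mem _ (f j)
  · exact B.linearIndependent.comp _ f.injective
  · have h1 : Set.range (fun j => B (f j)) = Set.range B := by
      ext b
      constructor
      · rintro ⟨j, rfl⟩; exact ⟨f j, rfl⟩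
      · rintro ⟨i, rfl⟩; exact ⟨f.symm i, congrArg B (f.apply_symm_apply i)⟩
    rw [h1, B.span_eq]

/-- **The Kunneth projector in one degree and the powers of the product of the lines.** -/
theorem kunneth_degree_tfae {i n : ℕ} (hi : i ≤ 2 * X.dim) {x y : Fin (n + 1) → W.H X}
    (hx : IsBasisOf W X (2 * X.dim - i) n x) (hy : IsBasisOf W X i n y) :
    List.TFAE [KunnethAlgebraic W X i,
      PowerAlg W (pow (pow X n) 1) (2 * X.dim * (n + 1)) 0 (pairClass W n x y),
      ∃ m, PowerAlg W (pow (pow X n) 1) (2 * X.dim * (n + 1)) m (pairClass W n x y)] := by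
  have h1 := kunneth_degree hi hx hy
  have hygr : ∀ j, y j ∈ W.gr X i := fun j => by
    rw [← hy.2]; exact Submodule.subset_span ⟨j, rfl⟩
  have hxgr : ∀ j, x j ∈ W.gr X (2 * X.dim - i) := fun j => by
    rw [← hx.2]; exact Submodule.subset_span ⟨j, rfl⟩
  tfae_have 1 → 2 := by
    intro h
    exact ⟨X.dim * (n + 1), by ring, h1.1 h⟩
  tfae_have 2 → 3 := fun h => ⟨0, h⟩
  tfae_have 3 → 1 := by
    rintro ⟨m, p, -, hm⟩
    rw [h1]
    -- the dual basis
    obtain ⟨w, hw, hwy⟩ := exists_dual_hom (e := fun _ : Fin (n + 1) => i) hygr hy.1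
    have hwi : LinearIndependent W.K w := dual_indep' (x := w) (y := y) hwy
    have hwb : IsBasisOf W X (2 * X.dim - i) n w := by
      refine ⟨hwi, ?_⟩
      apply Submodule.eq_of_le_of_finrank_eq
      · rw [Submodule.span_le]
        rintro _ ⟨b, rfl⟩
        exact hw b
      · rw [finrank_span_eq_card hwi, ← hx.2, finrank_span_eq_card hx.1]
    obtain ⟨x', hx'⟩ := exists_basis hx
    obtain ⟨w', hw'⟩ := exists_basis hwb
    obtain ⟨r, hr0, hr⟩ := det_changeV (W := W) x' w'
    have ex : (fun j => (x' j : W.H X)) = x := funext hx'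
    have ew : (fun j => (w' j : W.H X)) = w := funext hw'
    rw [ex, ew] at hr
    have hxp : ∀ b, x b ∈ pty W X i := fun b => gr_le_pty (par_dual hi) (hxgr b)
    have hyp : ∀ b, y b ∈ pty W X i := fun b => gr_le_pty rfl (hygr b)
    have hwp : ∀ b, w b ∈ pty W X i := fun b => gr_le_pty (par_dual hi) (hw b)
    have ht : W.tr (pow X n) (detClass W n x * detClass W n y) ≠ 0 := by
      have h2 := tr_det_dual (W := W) hwp hyp hwy
      rw [hr, smul_mul_assoc, map_smul, smul_eq_mul] at h2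
      exact right_ne_zero_of_mul h2
    have h3 := pair_of_power (det_pty n hxp) (det_pty n hyp) ht m (span_le_alg hm)
    refine alg_span h3 ?_
    have h4 := W.mul_mem (W.map_mem (fst (pow X n) (pow X n)) (detClass_mem n hxgr))
      (W.map_mem (snd (pow X n) (pow X n)) (detClass_mem n hygr))
    have e : (2 * X.dim - i) * (n + 1) + i * (n + 1) = 2 * (X.dim * (n + 1)) := by
      rw [← Nat.add_mul, Nat.sub_add_cancel hi]
      ring
    rwa [e] at h4
  tfae_finish

/-- **The middle degree.** -/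
theorem kunneth_middle_tfae {n : ℕ} {y : Fin (n + 1) → W.H X} (hy : IsBasisOf W X X.dim n y) :
    List.TFAE [KunnethAlgebraic W X X.dim,
      PowerAlg W (pow X n) (X.dim * (n + 1)) 1 (detClass W n y),
      ∃ m, PowerAlg W (pow X n) (X.dim * (n + 1)) m (detClass W n y)] ∧
    (Odd X.dim → (KunnethAlgebraic W X X.dim ↔
      PowerAlg W (pow X n) (X.dim * (n + 1)) 0 (detClass W n y))) := by
  obtain ⟨h1, h2, h3⟩ := kunneth_middle hy
  refine ⟨?_, h3⟩
  tfae_have 1 ↔ 2 := h1
  tfae_have 3 ↔ 2 := h2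
  tfae_finish

/-- **One class for the Kunneth conjecture.** -/
theorem kunneth_one_tfae {n : ℕ} {e : Fin (n + 1) → ℕ} {v : Fin (n + 1) → W.H X}
    (h : IsHomBasis W X ⊤ n e v) :
    List.TFAE [∀ i, KunnethAlgebraic W X i,
      PowerAlg W (pow X n) (∑ j, e j) 1 (cdet W n e v),
      ∃ m, PowerAlg W (pow X n) (∑ j, e j) m (cdet W n e v)] := by
  obtain ⟨h1, h2⟩ := kunneth_one_class h
  tfae_have 1 ↔ 2 := h1
  tfae_have 3 ↔ 2 := h2
  tfae_finish

/-- **One class for the Lefschetz standard conjecture.** -/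
theorem lefschetz_one_tfae {D : X.Cycles} (hD : X.IsCyc 1 D) (hHL : HardLefschetz W X D) {n : ℕ}
    {e : Fin (n + 1) → ℕ} {v : Fin (n + 1) → W.H X} (h : IsHomBasis W X (lowPart W X) n e v) :
    List.TFAE [LefschetzB W X D,
      PowerAlg W (pow X n) (∑ j, e j) 1 (cdet W n e v),
      ∃ m, PowerAlg W (pow X n) (∑ j, e j) m (cdet W n e v)] := by
  obtain ⟨h1, h2⟩ := lefschetz_one_class hD hHL h
  tfae_have 1 ↔ 2 := h1
  tfae_have 3 ↔ 2 := h2
  tfae_finish

end Pool.Agent.Helper70Ct
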